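import Pool.Agent.Lib.MP_5d65a3_an.Defs

set_option autoImplicit false

open Set Filter Topology MeasureTheory

namespace Pool.Agent.MP_5d65a3_an

/-- Every map of the family maps `[0,1]` into itself and contracts by `1/100`. -/
structure Contr {E : Type} (f : E → ℝ → ℝ) : Prop where
  mapsTo : ∀ e, ∀ x ∈ Icc (0 : ℝ) 1, f e x ∈ Icc (0 : ℝ) 1
  lip : ∀ e, ∀ x ∈ Icc (0 : ℝ) 1, ∀ y ∈ Icc (0 : ℝ) 1, |f e x - f e y| ≤ (1 / 100) * |x - y|

variable {E : Type} {f : E → ℝ → ℝ}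

/-- approximants of the coding map -/
def appr (f : E → ℝ → ℝ) (ω : ℕ → E) (x₀ : ℝ) (n : ℕ) : ℝ :=
  wordMap f ((List.range n).map ω) x₀

/-- the coding map -/
noncomputable def code (f : E → ℝ → ℝ) (ω : ℕ → E) : ℝ :=
  limUnder atTop (appr f ω 0)

theorem appr_zero (ω : ℕ → E) (x₀ : ℝ) : appr f ω x₀ 0 = x₀ := by
  simp [appr, wordMap]

theorem appr_succ (ω : ℕ → E) (x₀ : ℝ) (n : ℕ) :
    appr f ω x₀ (n + 1) = f (ω 0) (appr f (fun k => ω (k + 1)) x₀ n) := by
  simp only [appr, List.range_succ_eq_map, List.map_cons, wordMap, List.map_map]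
  rfl

theorem appr_mem (hc : Contr f) (x₀ : ℝ) (hx : x₀ ∈ Icc (0 : ℝ) 1) (n : ℕ) :
    ∀ ω : ℕ → E, appr f ω x₀ n ∈ Icc (0 : ℝ) 1 := by
  induction n with
  | zero => intro ω; rw [appr_zero]; exact hx
  | succ n ih => intro ω; rw [appr_succ]; exact hc.mapsTo _ _ (ih _)

theorem appr_step (hc : Contr f) (x₀ : ℝ) (hx : x₀ ∈ Icc (0 : ℝ) 1) (n : ℕ) :
    ∀ ω : ℕ → E, |appr f ω x₀ n - appr f ω x₀ (n + 1)| ≤ 1 * (1 / 100 : ℝ) ^ n := by
  induction n with
  | zero =>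
    intro ω
    have h1 := appr_mem hc x₀ hx 0 ω
    have h2 := appr_mem hc x₀ hx 1 ω
    simp only [pow_zero, mul_one, mem_Icc] at *
    rw [abs_le]; constructor <;> simp only [zero_add] <;> linarith
  | succ n ih =>
    intro ω
    rw [appr_succ, appr_succ]
    refine (hc.lip _ _ (appr_mem hc x₀ hx _ _) _ (appr_mem hc x₀ hx _ _)).trans ?_
    have := ih (fun k => ω (k + 1))
    rw [pow_succ]
    nlinarith

theorem appr_diff (hc : Contr f) (x₀ y₀ : ℝ) (hx : x₀ ∈ Icc (0 : ℝ) 1) (hy : y₀ ∈ Icc (0 : ℝ) 1)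
    (n : ℕ) :
    ∀ ω : ℕ → E, |appr f ω x₀ n - appr f ω y₀ n| ≤ (1 / 100 : ℝ) ^ n := by
  induction n with
  | zero =>
    intro ω
    have h1 := appr_mem hc x₀ hx 0 ω
    have h2 := appr_mem hc y₀ hy 0 ω
    simp only [pow_zero, mem_Icc] at *
    rw [abs_le]; constructor <;> linarith
  | succ n ih =>
    intro ω
    rw [appr_succ, appr_succ]
    refine (hc.lip _ _ (appr_mem hc x₀ hx _ _) _ (appr_mem hc y₀ hy _ _)).trans ?_
    have := ih (fun k => ω (k + 1))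
    rw [pow_succ]
    nlinarith

theorem appr_cauchy (hc : Contr f) (ω : ℕ → E) : CauchySeq (appr f ω 0) := by
  refine cauchySeq_of_le_geometric (1 / 100) 1 (by norm_num) (fun n => ?_)
  rw [Real.dist_eq]
  exact appr_step hc 0 (by simp) n ω

theorem tendsto_code0 (hc : Contr f) (ω : ℕ → E) :
    Tendsto (appr f ω 0) atTop (𝓝 (code f ω)) :=
  (appr_cauchy hc ω).tendsto_limUnder

theorem tendsto_code (hc : Contr f) (ω : ℕ → E) (x₀ : ℝ) (hx : x₀ ∈ Icc (0 : ℝ) 1) :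
    Tendsto (appr f ω x₀) atTop (𝓝 (code f ω)) := by
  have h0 := tendsto_code0 hc ω
  have h1 : Tendsto (fun n => appr f ω x₀ n - appr f ω 0 n) atTop (𝓝 0) := by
    refine squeeze_zero_norm (fun n => ?_)
      (tendsto_pow_atTop_nhds_zero_of_lt_one (r := (1 / 100 : ℝ)) (by norm_num) (by norm_num))
    rw [Real.norm_eq_abs]
    exact appr_diff hc x₀ 0 hx (by simp) n ω
  have := h1.add h0
  simpa using this

theorem code_mem (hc : Contr f) (ω : ℕ → E) : code f ω ∈ Icc (0 : ℝ) 1 :=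
  isClosed_Icc.mem_of_tendsto (tendsto_code0 hc ω)
    (Eventually.of_forall (fun n => appr_mem hc 0 (by simp) n ω))

theorem code_eq (hc : Contr f) (ω : ℕ → E) :
    code f ω = f (ω 0) (code f (fun k => ω (k + 1))) := by
  have h1 : Tendsto (fun n => appr f ω 0 (n + 1)) atTop (𝓝 (code f ω)) :=
    (tendsto_code0 hc ω).comp (tendsto_add_atTop_nat 1)
  have h2 := tendsto_code0 hc (fun k => ω (k + 1))
  have h3 : Tendsto (fun n => appr f ω 0 (n + 1)) atTop
      (𝓝 (f (ω 0) (code f (fun k => ω (k + 1))))) := by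
    rw [tendsto_iff_dist_tendsto_zero]
    refine squeeze_zero (fun _ => dist_nonneg) (fun n => ?_)
      (tendsto_iff_dist_tendsto_zero.1 h2)
    rw [appr_succ, Real.dist_eq, Real.dist_eq]
    refine (hc.lip _ _ (appr_mem hc 0 (by simp) _ _) _ (code_mem hc _)).trans ?_
    have := abs_nonneg (appr f (fun k => ω (k + 1)) 0 n - code f fun k => ω (k + 1))
    linarith
  exact tendsto_nhds_unique h1 h3

end Pool.Agent.MP_5d65a3_an
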