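import Mathlib

set_option autoImplicit false

open Set Filter Topology MeasureTheory

namespace Pool.Agent.MP_5d65a3_an

/-- The composition `u_{w₁} ∘ ⋯ ∘ u_{wₙ}` along a finite word `w = w₁ ⋯ wₙ`
(the empty word gives the identity). -/
def wordMap {E : Type} (u : E → ℝ → ℝ) : List E → ℝ → ℝ
  | [] => fun x => x
  | a :: w => fun x => u a (wordMap u w x)

/-- A conformal iterated function system on the line `ℝ = ℝ¹`, with `C^∞` maps. -/
structure CIFS where
  /-- the alphabet -/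
  E : Type
  countable_E : Countable E
  /-- the compact set `X` -/
  X : Set ℝ
  /-- the open set `V` -/
  V : Set ℝ
  /-- the maps of the system -/
  u : E → ℝ → ℝ
  X_nonempty : X.Nonempty
  X_compact : IsCompact X
  X_regular : closure (interior X) = X
  u_mapsTo_X : ∀ a, MapsTo (u a) X X
  X_subset_V : X ⊆ V
  V_open : IsOpen V
  V_connected : IsConnected V
  V_bounded : Bornology.IsBounded V
  V_dist : ∃ δ > 0, ∀ x ∈ X, ∀ y ∉ V, δ ≤ dist x y
  /-- `u_a` maps `V` into itself -/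
  u_mapsTo_V : ∀ a, MapsTo (u a) V V
  /-- `u_a` is a homeomorphism of `V` onto an open set -/
  u_homeo : ∀ a, IsOpenEmbedding (fun x : V => u a x)
  /-- `u_a` is infinitely differentiable on `V` -/
  u_smooth : ∀ a, ContDiffOn ℝ ((⊤ : ℕ∞) : WithTop ℕ∞) (u a) V
  /-- `u_a` is conformal: its derivative (a linear map of `ℝ¹`) is invertible -/
  u_conformal : ∀ a, ∀ x ∈ V, deriv (u a) x ≠ 0
  /-- cone condition -/
  cone : ∃ c > 0, ∀ x ∈ X, ∀ r ∈ Ioo (0 : ℝ) 1,
    ENNReal.ofReal (c * r) ≤ volume (X ∩ Metric.ball x r)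
  /-- open set condition -/
  osc : ∀ a b, a ≠ b → Disjoint (u a '' interior X) (u b '' interior X)
  /-- uniform contraction -/
  contraction : ∃ κ < 1, ∀ a, ∀ x ∈ V, |deriv (u a) x| ≤ κ
  /-- the sup norms of the derivatives tend to `0` along the alphabet -/
  contraction_tendsto : ∀ ε > 0, {a | ∃ x ∈ V, ε ≤ |deriv (u a) x|}.Finite
  /-- bounded distortion -/
  distortion : ∃ C : ℝ, 1 ≤ C ∧ ∀ w : List E, ∀ x ∈ V, ∀ y ∈ V,
    |deriv (wordMap u w) x| ≤ C * |deriv (wordMap u w) y|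

/-- The limit set `Λ_A` of the subsystem `(u_a)_{a ∈ A}`: all limits
`π(ω) = lim_n u_{ω₁⋯ωₙ}(x₀)`, `ω ∈ A^ℕ`. -/
def CIFS.limitSet (U : CIFS) (A : Set U.E) : Set ℝ :=
  {x | ∃ ω : ℕ → U.E, (∀ n, ω n ∈ A) ∧
    ∀ x₀ ∈ U.X, Tendsto (fun n => wordMap U.u ((List.range n).map ω) x₀) atTop (𝓝 x)}

/-- The dimension spectrum `DS(U)`: all Hausdorff dimensions of the sets `Λ_A`, `A ⊆ E`. -/
def CIFS.spectrum (U : CIFS) : Set ℝ :=
  {s | 0 ≤ s ∧ ∃ A : Set U.E, dimH (U.limitSet A) = ENNReal.ofReal s}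

end Pool.Agent.MP_5d65a3_an
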