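import Pool.Agent.Lib.MP_5d65a3_an.Spectrum

set_option autoImplicit false

open Set Filter Topology MeasureTheory

namespace Pool.Agent.MP_5d65a3_an

theorem mirror : ∃ K : Set ℝ, K = Icc 0 (1 / 500) ∪ Icc (3 / 1000) (1 / 200) ∧
    (∃ U : CIFS, Infinite U.E ∧ U.spectrum = K) ∧
    (∃ U' : CIFS, Infinite U'.E ∧ U'.spectrum = (fun x => sSup K - x) '' K) ∧
    ¬ ∃ l > 0, K = Icc 0 l := by
  obtain ⟨w, y, η, h⟩ := exists_par
  have hsup : sSup (Icc (0 : ℝ) (1 / 500) ∪ Icc (3 / 1000) (1 / 200)) = 1 / 200 := by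
    apply IsGreatest.csSup_eq
    refine ⟨Or.inr ⟨by norm_num, le_rfl⟩, ?_⟩
    rintro x (hx | hx)
    · linarith [hx.2]
    · exact hx.2
  refine ⟨_, rfl, ⟨sys h, by change Infinite ℕ; infer_instance, spectrum_eq h⟩,
    ⟨sys h, by change Infinite ℕ; infer_instance, ?_⟩, ?_⟩
  · rw [spectrum_eq h, hsup]
    ext x
    constructor
    · intro hx
      refine ⟨1 / 200 - x, ?_, by simp⟩
      rcases hx with hx | hx
      · right; constructor <;> linarith [hx.1, hx.2]
      · left; constructor <;> linarith [hx.1, hx.2]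
    · rintro ⟨z, hz, rfl⟩
      rcases hz with hz | hz
      · right; constructor <;> simp only <;> linarith [hz.1, hz.2]
      · left; constructor <;> simp only <;> linarith [hz.1, hz.2]
  · rintro ⟨l, hl, hK⟩
    have h1 : (1 / 200 : ℝ) ∈ Icc (0 : ℝ) l := by
      rw [← hK]; exact Or.inr ⟨by norm_num, le_rfl⟩
    have h2 : (1 / 400 : ℝ) ∈ Icc (0 : ℝ) (1 / 500) ∪ Icc (3 / 1000) (1 / 200) := by
      rw [hK]; exact ⟨by norm_num, by linarith [h1.2]⟩
    rcases h2 with h2 | h2
    · have := h2.2; norm_num at this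
    · have := h2.1; norm_num at this

end Pool.Agent.MP_5d65a3_an
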