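import Mathlib

set_option autoImplicit false

open Set Filter Topology

namespace Pool.Agent.MP_5d65a3_an

/-- Every number in `[0, 1/(1-r)]` is a subsum of the geometric series of ratio `r ≥ 1/2`. -/
theorem exists_subsum (r : ℝ) (hr : 1 / 2 ≤ r) (h1 : r < 1) (τ : ℝ) (h0 : 0 ≤ τ)
    (hτ : τ ≤ 1 / (1 - r)) :
    ∃ S : Set ℕ, HasSum (S.indicator (fun n => r ^ n)) τ := by
  classical
  have hr0 : 0 < r := by linarith
  have h1r : 0 < 1 - r := by linarith
  -- greedy remainders
  obtain ⟨rem, rem0, remS⟩ : ∃ rem : ℕ → ℝ, rem 0 = τ ∧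
      ∀ n, rem (n + 1) = if r ^ n ≤ rem n then rem n - r ^ n else rem n :=
    ⟨fun n => Nat.rec τ (fun n t => if r ^ n ≤ t then t - r ^ n else t) n, rfl, fun n => rfl⟩
  have hinv : ∀ n, 0 ≤ rem n ∧ rem n ≤ r ^ n / (1 - r) := by
    intro n
    induction n with
    | zero => rw [rem0, pow_zero]; exact ⟨h0, hτ⟩
    | succ n ih =>
      rw [remS]
      have hpn : 0 < r ^ n := pow_pos hr0 n
      have e1 : r ^ n / (1 - r) - r ^ n = r ^ (n + 1) / (1 - r) := by
        field_simp
        ring
      split_ifs with h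
      · exact ⟨by linarith, by linarith [ih.2]⟩
      · refine ⟨ih.1, ?_⟩
        push Not at h
        refine h.le.trans ?_
        rw [le_div_iff₀ h1r, pow_succ]
        nlinarith
  have hlim : Tendsto rem atTop (𝓝 0) := by
    refine squeeze_zero (fun n => (hinv n).1) (fun n => (hinv n).2) ?_
    have := (tendsto_pow_atTop_nhds_zero_of_lt_one hr0.le h1).div_const (1 - r)
    simpa using this
  refine ⟨{n | r ^ n ≤ rem n}, ?_⟩
  rw [hasSum_iff_tendsto_nat_of_nonneg
    (fun n => indicator_nonneg (fun n _ => (pow_pos hr0 n).le) n)]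
  have hsum : ∀ n, ∑ i ∈ Finset.range n, ({n | r ^ n ≤ rem n} : Set ℕ).indicator
      (fun n => r ^ n) i = τ - rem n := by
    intro n
    induction n with
    | zero => simp [rem0]
    | succ n ih =>
      rw [Finset.sum_range_succ, ih, remS]
      by_cases h : r ^ n ≤ rem n
      · rw [indicator_of_mem (by exact h), if_pos h]; ring
      · rw [indicator_of_notMem (by exact h), if_neg h]; ring
  simp_rw [hsum]
  simpa using tendsto_const_nhds.sub hlim

end Pool.Agent.MP_5d65a3_an
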