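import Pool.Agent.Lib.MP_5d65a3_an.Coding

set_option autoImplicit false

open Set Filter Topology MeasureTheory ENNReal

namespace Pool.Agent.MP_5d65a3_an

variable {E : Type} {f : E → ℝ → ℝ}

theorem exists_split_aux (p : E → ℝ) (hp : ∀ a, 0 < p a) (S : Finset E) :
    ∃ c : E → ℝ, ∀ t ∈ Ico (0 : ℝ) (∑ a ∈ S, p a), ∃ a ∈ S, ∃ t' ∈ Ico (0 : ℝ) 1,
      t = c a + p a * t' := by
  classical
  induction S using Finset.induction_on with
  | empty => exact ⟨fun _ => 0, fun t ht => by simp at ht⟩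
  | insert a S ha ih =>
    obtain ⟨c, hc⟩ := ih
    refine ⟨Function.update c a (∑ b ∈ S, p b), fun t ht => ?_⟩
    rw [Finset.sum_insert ha] at ht
    by_cases h : t < ∑ b ∈ S, p b
    · obtain ⟨b, hb, t', ht', h'⟩ := hc t ⟨ht.1, h⟩
      refine ⟨b, Finset.mem_insert_of_mem hb, t', ht', ?_⟩
      have : b ≠ a := fun h => ha (h ▸ hb)
      rw [Function.update_of_ne this]
      exact h'
    · refine ⟨a, Finset.mem_insert_self _ _, (t - ∑ b ∈ S, p b) / p a, ⟨?_, ?_⟩, ?_⟩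
      · exact div_nonneg (by linarith) (hp a).le
      · rw [div_lt_one (hp a)]; linarith [ht.2]
      · rw [Function.update_self, mul_div_cancel₀ _ (hp a).ne']; ring

theorem exists_split [Fintype E] (p : E → ℝ) (hp : ∀ a, 0 < p a) (hsum : ∑ a, p a = 1) :
    ∃ c : E → ℝ, ∀ t ∈ Ico (0 : ℝ) 1, ∃ a, ∃ t' ∈ Ico (0 : ℝ) 1, t = c a + p a * t' := by
  obtain ⟨c, hc⟩ := exists_split_aux p hp Finset.univ
  rw [hsum] at hc
  exact ⟨c, fun t ht => by
    obtain ⟨a, -, h⟩ := hc t ht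
    exact ⟨a, h⟩⟩

theorem exists_step [Fintype E] (P : E → E → ℝ) (hp : ∀ a b, 0 < P a b)
    (hsum : ∀ a, ∑ b, P a b = 1) :
    ∃ (c : E → E → ℝ) (step : E × ℝ → E × ℝ), ∀ a, ∀ t ∈ Ico (0 : ℝ) 1,
      (step (a, t)).2 ∈ Ico (0 : ℝ) 1 ∧
      t = c a (step (a, t)).1 + P a (step (a, t)).1 * (step (a, t)).2 := by
  choose c hc using fun a => exists_split (P a) (hp a) (hsum a)
  have h : ∀ q : E × ℝ, ∃ r : E × ℝ, q.2 ∈ Ico (0 : ℝ) 1 →
      r.2 ∈ Ico (0 : ℝ) 1 ∧ q.2 = c q.1 r.1 + P q.1 r.1 * r.2 := by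
    intro q
    by_cases hq : q.2 ∈ Ico (0 : ℝ) 1
    · obtain ⟨b, t', ht', h'⟩ := hc q.1 q.2 hq
      exact ⟨(b, t'), fun _ => ⟨ht', h'⟩⟩
    · exact ⟨q, fun h => absurd h hq⟩
  choose step hstep using h
  exact ⟨c, step, fun a t ht => hstep (a, t) ht⟩

theorem le_dimH_of_weight [Fintype E] [Nonempty E] (hc : Contr f) (s : E → E → ℝ)
    (hs0 : ∀ a b, 0 < s a b) (hs1 : ∀ a b, s a b ≤ 1 / 100)
    (aff : ∀ a b, ∀ x ∈ Icc (0 : ℝ) 1, ∀ y ∈ Icc (0 : ℝ) 1,
      |f a (f b x) - f a (f b y)| = s a b * |f b x - f b y|)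
    (m₀ : ℝ) (hm₀ : 0 < m₀)
    (hm : ∀ a, ∀ x ∈ Icc (0 : ℝ) 1, ∀ y ∈ Icc (0 : ℝ) 1, m₀ * |x - y| ≤ |f a x - f a y|)
    (δ₀ : ℝ) (hδ₀ : 0 < δ₀)
    (hδ : ∀ a b, a ≠ b → ∀ x ∈ Icc (0 : ℝ) 1, ∀ y ∈ Icc (0 : ℝ) 1, δ₀ ≤ |f a x - f b y|)
    (σ : ℝ) (hσ : 0 < σ) (Y : E → ℝ) (hY : ∀ a, 0 < Y a)
    (hsup : ∀ a, Y a ≤ ∑ b, s a b ^ σ * Y b) :
    ENNReal.ofReal σ ≤ dimH (range (code f)) := by
  classical
  have hZ : ∀ a, 0 < ∑ b, s a b ^ σ * Y b := fun a => (hY a).trans_le (hsup a)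
  obtain ⟨c, step, hstep⟩ := exists_step (fun a b => s a b ^ σ * Y b / ∑ b, s a b ^ σ * Y b)
    (fun a b => div_pos (mul_pos (Real.rpow_pos_of_pos (hs0 a b) _) (hY b)) (hZ a))
    (fun a => by
      rw [← Finset.sum_div]
      exact div_self (hZ a).ne')
  obtain ⟨a₀⟩ := ‹Nonempty E›
  -- maximum of Y
  obtain ⟨M, hM⟩ : ∃ M : ℝ, ∀ a, Y a ≤ M := by
    obtain ⟨a, ha⟩ := Finite.exists_max Y
    exact ⟨Y a, ha⟩
  have hM0 : 0 < M := (hY a₀).trans_le (hM a₀)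
  set C₀ : ℝ := M / (m₀ * δ₀) ^ σ with hC₀
  have hmd : 0 < m₀ * δ₀ := mul_pos hm₀ hδ₀
  have hmdσ : 0 < (m₀ * δ₀) ^ σ := Real.rpow_pos_of_pos hmd _
  have hC₀0 : 0 < C₀ := div_pos hM0 hmdσ
  let x : E × ℝ → ℝ := fun q => code f (fun n => (step^[n] q).1)
  have hx : ∀ q, x q = f q.1 (x (step q)) := by
    intro q
    show code f _ = _
    rw [code_eq hc]
    rfl
  have hxm : ∀ q, x q ∈ Icc (0 : ℝ) 1 := fun q => code_mem hc _
  set κ' : ℝ := (1 / 100 : ℝ) ^ σ with hκ'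
  have hκ'0 : 0 < κ' := Real.rpow_pos_of_pos (by norm_num) _
  have hκ'1 : κ' < 1 := Real.rpow_lt_one (by norm_num) (by norm_num) hσ
  have key : ∀ n : ℕ, ∀ a, ∀ t ∈ Ico (0 : ℝ) 1, ∀ u ∈ Ico (0 : ℝ) 1,
      Y a * |t - u| ≤ C₀ * |x (a, t) - x (a, u)| ^ σ ∨ Y a * |t - u| ≤ κ' ^ n * M := by
    intro n
    induction n with
    | zero =>
      intro a t ht u hu
      right
      rw [pow_zero, one_mul]
      have h1 : |t - u| ≤ 1 := by
        rw [abs_le]; constructor <;> linarith [ht.1, ht.2, hu.1, hu.2]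
      calc Y a * |t - u| ≤ Y a * 1 := by gcongr; exact (hY a).le
        _ ≤ M := by rw [mul_one]; exact hM a
    | succ n ih =>
      intro a t ht u hu
      obtain ⟨ht1, ht2⟩ := hstep a t ht
      obtain ⟨hu1, hu2⟩ := hstep a u hu
      rcases hst : step (a, t) with ⟨b, t'⟩
      rcases hsu : step (a, u) with ⟨b', u'⟩
      rw [hst] at ht1 ht2
      rw [hsu] at hu1 hu2
      simp only at ht1 ht2 hu1 hu2
      have hxt : x (a, t) = f a (x (b, t')) := by rw [hx, hst]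
      have hxu : x (a, u) = f a (x (b', u')) := by rw [hx, hsu]
      by_cases hb : b = b'
      · subst hb
        have h1 : |t - u| = (s a b ^ σ * Y b / ∑ b, s a b ^ σ * Y b) * |t' - u'| := by
          have hpos : 0 ≤ (s a b ^ σ * Y b / ∑ b, s a b ^ σ * Y b) :=
            (div_pos (mul_pos (Real.rpow_pos_of_pos (hs0 a b) _) (hY b)) (hZ a)).le
          rw [ht2, hu2]
          rw [show c a b + s a b ^ σ * Y b / (∑ b, s a b ^ σ * Y b) * t' -
            (c a b + s a b ^ σ * Y b / (∑ b, s a b ^ σ * Y b) * u') =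
            (s a b ^ σ * Y b / (∑ b, s a b ^ σ * Y b)) * (t' - u') by ring, abs_mul,
            abs_of_nonneg hpos]
        have h2 : Y a * |t - u| ≤ s a b ^ σ * (Y b * |t' - u'|) := by
          rw [h1]
          have h3 : Y a * (s a b ^ σ * Y b / ∑ b, s a b ^ σ * Y b) ≤ s a b ^ σ * Y b := by
            rw [mul_div_assoc']
            rw [div_le_iff₀ (hZ a), mul_comm (Y a)]
            exact mul_le_mul_of_nonneg_left (hsup a)
              (mul_pos (Real.rpow_pos_of_pos (hs0 a b) _) (hY b)).le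
          calc Y a * (s a b ^ σ * Y b / (∑ b, s a b ^ σ * Y b) * |t' - u'|)
              = Y a * (s a b ^ σ * Y b / (∑ b, s a b ^ σ * Y b)) * |t' - u'| := by ring
            _ ≤ s a b ^ σ * Y b * |t' - u'| := mul_le_mul_of_nonneg_right h3 (abs_nonneg _)
            _ = _ := by ring
        rcases ih b t' ht1 u' hu1 with h | h
        · left
          have hxt' : x (b, t') = f b (x (step (b, t'))) := hx _
          have hxu' : x (b, u') = f b (x (step (b, u'))) := hx _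
          have h4 : |x (a, t) - x (a, u)| = s a b * |x (b, t') - x (b, u')| := by
            rw [hxt, hxu, hxt', hxu']
            exact aff a b _ (hxm _) _ (hxm _)
          rw [h4, Real.mul_rpow (hs0 a b).le (abs_nonneg _)]
          calc Y a * |t - u| ≤ s a b ^ σ * (Y b * |t' - u'|) := h2
            _ ≤ s a b ^ σ * (C₀ * |x (b, t') - x (b, u')| ^ σ) :=
              mul_le_mul_of_nonneg_left h (Real.rpow_pos_of_pos (hs0 a b) _).le
            _ = _ := by ring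
        · right
          have h5 : s a b ^ σ ≤ κ' := Real.rpow_le_rpow (hs0 a b).le (hs1 a b) hσ.le
          calc Y a * |t - u| ≤ s a b ^ σ * (Y b * |t' - u'|) := h2
            _ ≤ κ' * (κ' ^ n * M) := by
              refine mul_le_mul h5 h ?_ hκ'0.le
              exact mul_nonneg (hY b).le (abs_nonneg _)
            _ = _ := by ring
      · left
        have hxt' : x (b, t') = f b (x (step (b, t'))) := hx _
        have hxu' : x (b', u') = f b' (x (step (b', u'))) := hx _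
        have h1 : δ₀ ≤ |x (b, t') - x (b', u')| := by
          rw [hxt', hxu']
          exact hδ b b' hb _ (hxm _) _ (hxm _)
        have h2 : m₀ * δ₀ ≤ |x (a, t) - x (a, u)| := by
          rw [hxt, hxu]
          refine le_trans ?_ (hm a _ (hxm _) _ (hxm _))
          exact mul_le_mul_of_nonneg_left h1 hm₀.le
        have h3 : |t - u| ≤ 1 := by
          rw [abs_le]; constructor <;> linarith [ht.1, ht.2, hu.1, hu.2]
        calc Y a * |t - u| ≤ M * 1 := mul_le_mul (hM a) h3 (abs_nonneg _) hM0.le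
          _ = C₀ * (m₀ * δ₀) ^ σ := by
            rw [hC₀, mul_one, div_mul_cancel₀ _ hmdσ.ne']
          _ ≤ _ := mul_le_mul_of_nonneg_left (Real.rpow_le_rpow hmd.le h2 hσ.le) hC₀0.le
  have key2 : ∀ t ∈ Ico (0 : ℝ) 1, ∀ u ∈ Ico (0 : ℝ) 1,
      Y a₀ * |t - u| ≤ C₀ * |x (a₀, t) - x (a₀, u)| ^ σ := by
    intro t ht u hu
    by_contra hcon
    have h1 : ∀ n : ℕ, Y a₀ * |t - u| ≤ κ' ^ n * M := fun n =>
      (key n a₀ t ht u hu).resolve_left hcon
    have h2 : Tendsto (fun n : ℕ => κ' ^ n * M) atTop (𝓝 (0 * M)) :=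
      (tendsto_pow_atTop_nhds_zero_of_lt_one hκ'0.le hκ'1).mul_const M
    have h3 : Y a₀ * |t - u| ≤ 0 * M := ge_of_tendsto' h2 h1
    have h4 : 0 ≤ C₀ * |x (a₀, t) - x (a₀, u)| ^ σ :=
      mul_nonneg hC₀0.le (Real.rpow_nonneg (abs_nonneg _) _)
    linarith
  -- the inverse map is Hölder
  have key3 : ∀ t ∈ Ico (0 : ℝ) 1, ∀ u ∈ Ico (0 : ℝ) 1,
      |t - u| ≤ (C₀ / Y a₀) * |x (a₀, t) - x (a₀, u)| ^ σ := by
    intro t ht u hu
    have := key2 t ht u hu
    rw [div_mul_eq_mul_div, le_div_iff₀ (hY a₀)]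
    linarith
  let φ : ℝ → ℝ := fun t => x (a₀, t)
  have hinj : InjOn φ (Ico 0 1) := by
    intro t ht u hu h
    have h1 := key3 t ht u hu
    have h2 : x (a₀, t) = x (a₀, u) := h
    rw [h2, sub_self, abs_zero, Real.zero_rpow hσ.ne', mul_zero] at h1
    have h3 : |t - u| = 0 := le_antisymm h1 (abs_nonneg _)
    linarith [abs_eq_zero.1 h3]
  let g : ℝ → ℝ := Function.invFunOn φ (Ico 0 1)
  have hg : ∀ t ∈ Ico (0 : ℝ) 1, g (φ t) = t := fun t ht => hinj.leftInvOn_invFunOn ht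
  have hhold : HolderOnWith (C₀ / Y a₀).toNNReal σ.toNNReal g (φ '' Ico 0 1) := by
    rintro _ ⟨t, ht, rfl⟩ _ ⟨u, hu, rfl⟩
    rw [hg t ht, hg u hu, edist_dist, edist_dist, Real.coe_toNNReal _ hσ.le,
      ENNReal.ofReal_rpow_of_nonneg dist_nonneg hσ.le]
    change _ ≤ ENNReal.ofReal (C₀ / Y a₀) * _
    rw [← ENNReal.ofReal_mul (div_pos hC₀0 (hY a₀)).le]
    exact ENNReal.ofReal_le_ofReal (key3 t ht u hu)
  have hd := hhold.dimH_image_le (by simpa using hσ)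
  have himg : g '' (φ '' Ico 0 1) = Ico 0 1 := by
    rw [image_image]
    ext t
    constructor
    · rintro ⟨u, hu, rfl⟩
      show g (φ u) ∈ _
      rw [hg u hu]; exact hu
    · intro ht
      exact ⟨t, ht, hg t ht⟩
  have hone : dimH (Ico (0 : ℝ) 1) = 1 := by
    have : (interior (Ico (0 : ℝ) 1)).Nonempty := by
      rw [interior_Ico]; exact nonempty_Ioo.2 one_pos
    have h := Real.dimH_of_nonempty_interior this
    simpa using h
  rw [himg, hone] at hd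
  have hσ' : (0 : ℝ≥0∞) < ((σ.toNNReal : NNReal) : ℝ≥0∞) := by simpa using hσ
  have hd2 : ((σ.toNNReal : NNReal) : ℝ≥0∞) ≤ dimH (φ '' Ico 0 1) := by
    rw [ENNReal.le_div_iff_mul_le (Or.inl hσ'.ne') (Or.inl ENNReal.coe_ne_top), one_mul] at hd
    exact hd
  refine le_trans hd2 (dimH_mono ?_)
  rintro _ ⟨t, _, rfl⟩
  exact ⟨_, rfl⟩

end Pool.Agent.MP_5d65a3_an
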