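import Pool.Agent.Lib.MP_5d65a3_an.Defs

set_option autoImplicit false

open Set Filter Topology MeasureTheory

namespace Pool.Agent.MP_5d65a3_an

/-- smooth step from `0` (for `x ≤ 1/3`) to `1` (for `x ≥ 2/3`) -/
noncomputable def chi (x : ℝ) : ℝ := Real.smoothTransition (3 * x - 1)

/-- its primitive -/
noncomputable def Chi (x : ℝ) : ℝ := ∫ t in (0 : ℝ)..x, chi t

theorem chi_contDiff : ContDiff ℝ ((⊤ : ℕ∞) : WithTop ℕ∞) chi := by
  unfold chi
  exact Real.smoothTransition.contDiff.comp (by fun_prop)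

theorem chi_continuous : Continuous chi := chi_contDiff.continuous

theorem chi_nonneg (x : ℝ) : 0 ≤ chi x := Real.smoothTransition.nonneg _

theorem chi_le_one (x : ℝ) : chi x ≤ 1 := Real.smoothTransition.le_one _

theorem chi_left {x : ℝ} (hx : x ≤ 1 / 3) : chi x = 0 :=
  Real.smoothTransition.zero_of_nonpos (by linarith)

theorem chi_right {x : ℝ} (hx : 2 / 3 ≤ x) : chi x = 1 :=
  Real.smoothTransition.one_of_one_le (by linarith)

theorem hasDerivAt_Chi (x : ℝ) : HasDerivAt Chi (chi x) x :=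
  intervalIntegral.integral_hasDerivAt_right (chi_continuous.intervalIntegrable _ _)
    chi_continuous.stronglyMeasurable.stronglyMeasurableAtFilter chi_continuous.continuousAt

theorem deriv_Chi : deriv Chi = chi := funext fun x => (hasDerivAt_Chi x).deriv

theorem Chi_contDiff : ContDiff ℝ ((⊤ : ℕ∞) : WithTop ℕ∞) Chi := by
  rw [contDiff_infty_iff_deriv]
  exact ⟨fun x => (hasDerivAt_Chi x).differentiableAt, by rw [deriv_Chi]; exact chi_contDiff⟩

theorem Chi_sub (x y : ℝ) : Chi x - Chi y = ∫ t in y..x, chi t := by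
  unfold Chi
  rw [intervalIntegral.integral_interval_sub_left] <;>
    exact chi_continuous.intervalIntegrable _ _

theorem Chi_sub_nonneg {x y : ℝ} (h : y ≤ x) : 0 ≤ Chi x - Chi y := by
  rw [Chi_sub]
  exact intervalIntegral.integral_nonneg h (fun t _ => chi_nonneg t)

theorem Chi_sub_le {x y : ℝ} (h : y ≤ x) : Chi x - Chi y ≤ x - y := by
  rw [Chi_sub]
  calc ∫ t in y..x, chi t ≤ ∫ t in y..x, (1 : ℝ) :=
        intervalIntegral.integral_mono_on h (chi_continuous.intervalIntegrable _ _)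
          (by simp) (fun t _ => chi_le_one t)
    _ = x - y := by simp

theorem Chi_left {x y : ℝ} (hx : x ≤ 1 / 3) (hy : y ≤ 1 / 3) : Chi x - Chi y = 0 := by
  rw [Chi_sub]
  rw [intervalIntegral.integral_congr (g := fun _ => (0 : ℝ))]
  · simp
  · intro t ht
    apply chi_left
    rw [mem_uIcc] at ht
    rcases ht with h | h <;> linarith

theorem Chi_right {x y : ℝ} (hx : 2 / 3 ≤ x) (hy : 2 / 3 ≤ y) : Chi x - Chi y = x - y := by
  rw [Chi_sub]
  rw [intervalIntegral.integral_congr (g := fun _ => (1 : ℝ))]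
  · simp
  · intro t ht
    apply chi_right
    rw [mem_uIcc] at ht
    rcases ht with h | h <;> linarith

theorem Chi_zero : Chi 0 = 0 := by simp [Chi]

/-- The maps: slope `L` on `(-∞, 1/3]`, slope `R` on `[2/3, ∞)`, value `c` at `0`. -/
noncomputable def mp (c L R : ℝ) (x : ℝ) : ℝ := c + L * x + (R - L) * Chi x

theorem mp_zero (c L R : ℝ) : mp c L R 0 = c := by simp [mp, Chi_zero]

theorem mp_hasDerivAt (c L R x : ℝ) : HasDerivAt (mp c L R) (L + (R - L) * chi x) x := by
  unfold mp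
  have h1 : HasDerivAt (fun x : ℝ => c + L * x) L x := by
    simpa using ((hasDerivAt_id x).const_mul L).const_add c
  exact h1.add ((hasDerivAt_Chi x).const_mul (R - L))

theorem mp_deriv (c L R x : ℝ) : deriv (mp c L R) x = L + (R - L) * chi x :=
  (mp_hasDerivAt c L R x).deriv

theorem mp_contDiff (c L R : ℝ) : ContDiff ℝ ((⊤ : ℕ∞) : WithTop ℕ∞) (mp c L R) := by
  unfold mp
  have := Chi_contDiff
  fun_prop

theorem mp_sub (c L R x y : ℝ) :
    mp c L R x - mp c L R y = L * ((x - y) - (Chi x - Chi y)) + R * (Chi x - Chi y) := by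
  unfold mp; ring

theorem mp_sub_le {c L R M : ℝ} (hL : L ≤ M) (hR : R ≤ M) {x y : ℝ} (h : y ≤ x) :
    mp c L R x - mp c L R y ≤ M * (x - y) := by
  rw [mp_sub]
  have h1 := Chi_sub_nonneg h
  have h2 := Chi_sub_le h
  nlinarith

theorem le_mp_sub {c L R m : ℝ} (hL : m ≤ L) (hR : m ≤ R) {x y : ℝ} (h : y ≤ x) :
    m * (x - y) ≤ mp c L R x - mp c L R y := by
  rw [mp_sub]
  have h1 := Chi_sub_nonneg h
  have h2 := Chi_sub_le h
  nlinarith

theorem mp_abs_le {c L R M : ℝ} (hL0 : 0 ≤ L) (hR0 : 0 ≤ R) (hL : L ≤ M) (hR : R ≤ M) (x y : ℝ) :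
    |mp c L R x - mp c L R y| ≤ M * |x - y| := by
  rcases le_total y x with h | h
  · rw [abs_of_nonneg (sub_nonneg.2 h), abs_of_nonneg]
    · exact mp_sub_le hL hR h
    · have := le_mp_sub (c := c) hL0 hR0 h
      linarith
  · rw [abs_sub_comm, abs_sub_comm x y]
    rw [abs_of_nonneg (sub_nonneg.2 h), abs_of_nonneg]
    · exact mp_sub_le hL hR h
    · have := le_mp_sub (c := c) hL0 hR0 h
      linarith

theorem le_mp_abs {c L R m : ℝ} (hL : m ≤ L) (hR : m ≤ R) (x y : ℝ) :
    m * |x - y| ≤ |mp c L R x - mp c L R y| := by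
  rcases le_total y x with h | h
  · rw [abs_of_nonneg (sub_nonneg.2 h)]
    exact (le_mp_sub hL hR h).trans (le_abs_self _)
  · rw [abs_sub_comm, abs_sub_comm (mp c L R x)]
    rw [abs_of_nonneg (sub_nonneg.2 h)]
    exact (le_mp_sub hL hR h).trans (le_abs_self _)

theorem mp_left {c L R : ℝ} (hL : 0 ≤ L) {x y : ℝ} (hx : x ≤ 1 / 3) (hy : y ≤ 1 / 3) :
    |mp c L R x - mp c L R y| = L * |x - y| := by
  rw [mp_sub, Chi_left hx hy, sub_zero, mul_zero, add_zero, abs_mul, abs_of_nonneg hL]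

theorem mp_right {c L R : ℝ} (hR : 0 ≤ R) {x y : ℝ} (hx : 2 / 3 ≤ x) (hy : 2 / 3 ≤ y) :
    |mp c L R x - mp c L R y| = R * |x - y| := by
  rw [mp_sub, Chi_right hx hy, sub_self, mul_zero, zero_add, abs_mul, abs_of_nonneg hR]

theorem mp_deriv_left {c L R x : ℝ} (hx : x ≤ 1 / 3) : deriv (mp c L R) x = L := by
  rw [mp_deriv, chi_left hx]; ring

theorem mp_deriv_right {c L R x : ℝ} (hx : 2 / 3 ≤ x) : deriv (mp c L R) x = R := by
  rw [mp_deriv, chi_right hx]; ring

theorem mp_deriv_le {c L R M : ℝ} (hL : L ≤ M) (hR : R ≤ M) (x : ℝ) :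
    deriv (mp c L R) x ≤ M := by
  rw [mp_deriv]
  have h1 := chi_nonneg x
  have h2 := chi_le_one x
  nlinarith

theorem le_mp_deriv {c L R m : ℝ} (hL : m ≤ L) (hR : m ≤ R) (x : ℝ) :
    m ≤ deriv (mp c L R) x := by
  rw [mp_deriv]
  have h1 := chi_nonneg x
  have h2 := chi_le_one x
  nlinarith

/-- bounds for the values on `[-1, 2]` -/
theorem mp_bounds {c L R M : ℝ} (hL0 : 0 ≤ L) (hR0 : 0 ≤ R) (hL : L ≤ M) (hR : R ≤ M) {x : ℝ}
    (hx : x ∈ Icc (-1 : ℝ) 2) : c - M ≤ mp c L R x ∧ mp c L R x ≤ c + 2 * M := by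
  have hM : 0 ≤ M := hL0.trans hL
  rcases le_total 0 x with h | h
  · have h1 := mp_sub_le (c := c) hL hR h
    have h2 := le_mp_sub (c := c) hL0 hR0 h
    rw [mp_zero] at h1 h2
    constructor
    · linarith
    · nlinarith [hx.2]
  · have h1 := mp_sub_le (c := c) hL hR h
    have h2 := le_mp_sub (c := c) hL0 hR0 h
    rw [mp_zero] at h1 h2
    constructor
    · nlinarith [hx.1]
    · linarith

theorem mp_strictMono {c L R : ℝ} (hL : 0 < L) (hR : 0 < R) : StrictMono (mp c L R) := by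
  intro y x h
  have h1 := le_mp_sub (c := c) (m := min L R) (min_le_left _ _) (min_le_right _ _) h.le
  have h2 : 0 < min L R := lt_min hL hR
  nlinarith

theorem mp_surjective {c L R : ℝ} (hL : 0 < L) (hR : 0 < R) :
    Function.Surjective (mp c L R) := by
  have h2 : 0 < min L R := lt_min hL hR
  refine (mp_contDiff c L R).continuous.surjective ?_ ?_
  · refine tendsto_atTop_mono' atTop (f₁ := fun x => min L R * x + c) ?_ ?_
    · filter_upwards [eventually_ge_atTop 0] with x hx
      have h1 := le_mp_sub (c := c) (m := min L R) (min_le_left _ _) (min_le_right _ _) hx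
      rw [mp_zero] at h1
      linarith
    · exact tendsto_atTop_add_const_right _ _ (tendsto_id.const_mul_atTop h2)
  · refine tendsto_atBot_mono' atBot (f₁ := fun x => min L R * x + c) ?_ ?_
    · filter_upwards [eventually_le_atBot 0] with x hx
      have h1 := le_mp_sub (c := c) (m := min L R) (min_le_left _ _) (min_le_right _ _) hx
      rw [mp_zero] at h1
      linarith
    · exact tendsto_atBot_add_const_right _ _ (tendsto_id.const_mul_atBot h2)

theorem mp_openEmbedding {c L R : ℝ} (hL : 0 < L) (hR : 0 < R) {V : Set ℝ} (hV : IsOpen V) :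
    IsOpenEmbedding (fun x : V => mp c L R x) := by
  have h := (StrictMono.orderIsoOfSurjective (mp c L R) (mp_strictMono hL hR)
    (mp_surjective hL hR)).toHomeomorph.isOpenEmbedding
  exact h.comp hV.isOpenEmbedding_subtypeVal

end Pool.Agent.MP_5d65a3_an
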