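import Mathlib

set_option autoImplicit false

open Set Filter Topology

namespace Pool.Agent.MP_5d65a3_an

/-- The parameters of the construction. -/
structure Par (w y η : ℝ) : Prop where
  w_ge : 27 / 100 ≤ w
  w_le : w ≤ 311 / 1000
  y_pos : 0 < y
  η_pos : 0 < η
  eq3 : w ^ 3 + y ^ 3 = 1
  eq2 : 64 / 15 * η ^ 2 = (1 - w ^ 2) * (1 - 4 / 375)
  eq5 : w ^ 5 + y ^ 5 + 32768 / 15961 * (η ^ 5 + (1 / 20) ^ 5 * (1 - w ^ 5)) = 1

theorem exists_par : ∃ w y η : ℝ, Par w y η := by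
  let Yf : ℝ → ℝ := fun w => (1 - w ^ 3) ^ (1 / 3 : ℝ)
  let Hf : ℝ → ℝ := fun w => Real.sqrt (15 / 64 * ((1 - w ^ 2) * (1 - 4 / 375)))
  let F : ℝ → ℝ := fun w => w ^ 5 + (Yf w) ^ 5 +
    32768 / 15961 * ((Hf w) ^ 5 + (1 / 20) ^ 5 * (1 - w ^ 5))
  have hY3 : ∀ w : ℝ, w ≤ 1 → 0 ≤ w → (Yf w) ^ 3 = 1 - w ^ 3 := by
    intro w hw hw0
    have h0 : 0 ≤ 1 - w ^ 3 := by
      have := pow_le_one₀ hw0 hw (n := 3)
      linarith
    show ((1 - w ^ 3) ^ (1 / 3 : ℝ)) ^ 3 = _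
    rw [← Real.rpow_natCast, ← Real.rpow_mul h0]
    norm_num
  have hYpos : ∀ w : ℝ, w < 1 → 0 ≤ w → 0 < Yf w := by
    intro w hw hw0
    apply Real.rpow_pos_of_pos
    have := pow_lt_one₀ hw0 hw (n := 3) (by norm_num)
    linarith
  have hH2 : ∀ w : ℝ, w ≤ 1 → 0 ≤ w →
      (Hf w) ^ 2 = 15 / 64 * ((1 - w ^ 2) * (1 - 4 / 375)) := by
    intro w hw hw0
    have h0 : 0 ≤ 1 - w ^ 2 := by
      have := pow_le_one₀ hw0 hw (n := 2)
      linarith
    show (Real.sqrt _) ^ 2 = _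
    rw [Real.sq_sqrt]
    positivity
  have hHpos : ∀ w : ℝ, w < 1 → 0 ≤ w → 0 < Hf w := by
    intro w hw hw0
    apply Real.sqrt_pos.2
    have := pow_lt_one₀ hw0 hw (n := 2) (by norm_num)
    have : 0 < 1 - w ^ 2 := by linarith
    positivity
  have hcont : Continuous F := by
    have h1 : Continuous Yf := by
      refine Continuous.rpow_const (by fun_prop) (fun _ => Or.inr (by norm_num))
    have h2 : Continuous Hf := by
      refine Continuous.sqrt (by fun_prop)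
    fun_prop
  -- value at 27/100
  have hlow : 1 ≤ F (27 / 100) := by
    have hy3 := hY3 (27 / 100) (by norm_num) (by norm_num)
    have hy := hYpos (27 / 100) (by norm_num) (by norm_num)
    have hh2 := hH2 (27 / 100) (by norm_num) (by norm_num)
    have hh := hHpos (27 / 100) (by norm_num) (by norm_num)
    show 1 ≤ (27 / 100 : ℝ) ^ 5 + (Yf (27 / 100)) ^ 5 +
      32768 / 15961 * ((Hf (27 / 100)) ^ 5 + (1 / 20) ^ 5 * (1 - (27 / 100 : ℝ) ^ 5))
    set y := Yf (27 / 100)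
    set h := Hf (27 / 100)
    have h1 : (9933 / 10000 : ℝ) ≤ y := by
      by_contra hcon
      push Not at hcon
      have : y ^ 3 < (9933 / 10000) ^ 3 := pow_lt_pow_left₀ hcon hy.le (by norm_num)
      rw [hy3] at this
      norm_num at this
    have h2 : (46 / 100 : ℝ) ≤ h := by
      by_contra hcon
      push Not at hcon
      have : h ^ 2 < (46 / 100) ^ 2 := pow_lt_pow_left₀ hcon hh.le (by norm_num)
      rw [hh2] at this
      norm_num at this
    have h3 : (9933 / 10000 : ℝ) ^ 5 ≤ y ^ 5 := pow_le_pow_left₀ (by norm_num) h1 5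
    have h4 : (46 / 100 : ℝ) ^ 5 ≤ h ^ 5 := pow_le_pow_left₀ (by norm_num) h2 5
    norm_num at h3 h4 ⊢
    linarith
  have hhigh : F (311 / 1000) ≤ 1 := by
    have hy3 := hY3 (311 / 1000) (by norm_num) (by norm_num)
    have hy := hYpos (311 / 1000) (by norm_num) (by norm_num)
    have hh2 := hH2 (311 / 1000) (by norm_num) (by norm_num)
    have hh := hHpos (311 / 1000) (by norm_num) (by norm_num)
    show (311 / 1000 : ℝ) ^ 5 + (Yf (311 / 1000)) ^ 5 +
      32768 / 15961 * ((Hf (311 / 1000)) ^ 5 + (1 / 20) ^ 5 * (1 - (311 / 1000 : ℝ) ^ 5)) ≤ 1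
    set y := Yf (311 / 1000)
    set h := Hf (311 / 1000)
    have h1 : y ≤ (9899 / 10000 : ℝ) := by
      by_contra hcon
      push Not at hcon
      have : (9899 / 10000) ^ 3 < y ^ 3 := pow_lt_pow_left₀ hcon (by norm_num) (by norm_num)
      rw [hy3] at this
      norm_num at this
    have h2 : h ≤ (4577 / 10000 : ℝ) := by
      by_contra hcon
      push Not at hcon
      have : (4577 / 10000) ^ 2 < h ^ 2 := pow_lt_pow_left₀ hcon (by norm_num) (by norm_num)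
      rw [hh2] at this
      norm_num at this
    have h3 : y ^ 5 ≤ (9899 / 10000 : ℝ) ^ 5 := pow_le_pow_left₀ hy.le h1 5
    have h4 : h ^ 5 ≤ (4577 / 10000 : ℝ) ^ 5 := pow_le_pow_left₀ hh.le h2 5
    norm_num at h3 h4 ⊢
    linarith
  have hivt : (1 : ℝ) ∈ F '' Icc (27 / 100) (311 / 1000) :=
    intermediate_value_Icc' (by norm_num) hcont.continuousOn ⟨hhigh, hlow⟩
  obtain ⟨w, hw, hF⟩ := hivt
  have hw0 : 0 ≤ w := by linarith [hw.1]
  have hw1 : w < 1 := by linarith [hw.2]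
  refine ⟨w, Yf w, Hf w, hw.1, hw.2, hYpos w hw1 hw0, hHpos w hw1 hw0, ?_, ?_, hF⟩
  · rw [hY3 w hw1.le hw0]; ring
  · rw [hH2 w hw1.le hw0]; ring

namespace Par

variable {w y η : ℝ} (h : Par w y η)
include h

theorem w_pos : 0 < w := by have := h.w_ge; linarith

theorem w_lt : w < 1 / 2 := by have := h.w_le; linarith

theorem y_le : y ≤ 9935 / 10000 := by
  by_contra hcon
  push Not at hcon
  have h1 : (9935 / 10000) ^ 3 < y ^ 3 := pow_lt_pow_left₀ hcon (by norm_num) (by norm_num)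
  have h2 : (27 / 100 : ℝ) ^ 3 ≤ w ^ 3 := pow_le_pow_left₀ (by norm_num) h.w_ge 3
  have h3 := h.eq3
  norm_num at h1 h2
  linarith

theorem y_ge : 98 / 100 ≤ y := by
  by_contra hcon
  push Not at hcon
  have h1 : y ^ 3 < (98 / 100) ^ 3 := pow_lt_pow_left₀ hcon h.y_pos.le (by norm_num)
  have h2 : w ^ 3 ≤ (311 / 1000 : ℝ) ^ 3 := pow_le_pow_left₀ h.w_pos.le h.w_le 3
  have h3 := h.eq3
  norm_num at h1 h2
  linarith

theorem η_le : η ≤ 4637 / 10000 := by
  by_contra hcon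
  push Not at hcon
  have h1 : (4637 / 10000) ^ 2 < η ^ 2 := pow_lt_pow_left₀ hcon (by norm_num) (by norm_num)
  have h2 : (27 / 100 : ℝ) ^ 2 ≤ w ^ 2 := pow_le_pow_left₀ (by norm_num) h.w_ge 2
  have h3 := h.eq2
  norm_num at h1 h2
  nlinarith

theorem η_ge : 45 / 100 ≤ η := by
  by_contra hcon
  push Not at hcon
  have h1 : η ^ 2 < (45 / 100) ^ 2 := pow_lt_pow_left₀ hcon h.η_pos.le (by norm_num)
  have h2 : w ^ 2 ≤ (311 / 1000 : ℝ) ^ 2 := pow_le_pow_left₀ h.w_pos.le h.w_le 2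
  have h3 := h.eq2
  norm_num at h1 h2
  nlinarith

theorem y_sq : y ^ 2 + 4 / 375 ≤ 1 := by
  have h1 : y ^ 2 ≤ (9935 / 10000) ^ 2 := pow_le_pow_left₀ h.y_pos.le h.y_le 2
  norm_num at h1
  linarith

end Par

end Pool.Agent.MP_5d65a3_an
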