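import Pool.Agent.Lib.MP_5d65a3_an.Weights
import Pool.Agent.Lib.MP_5d65a3_an.Kakeya

set_option autoImplicit false

open Set Filter Topology MeasureTheory

namespace Pool.Agent.MP_5d65a3_an

variable {w y η : ℝ}

theorem gg_mono (h : Par w y η) {s s' b Q Q' : ℝ} (hs' : 0 < s') (hss : s' < s) (hb : 0 ≤ b)
    (hQ : 0 ≤ Q) (hQQ : Q ≤ Q') (hg : 1 ≤ gg w y η s b Q) : 1 < gg w y η s' b Q' := by
  have hs : 0 < s := hs'.trans hss
  have hw1 : w < 1 := by linarith [h.w_lt]
  have a1 : w ^ s < w ^ s' := Real.rpow_lt_rpow_of_exponent_gt h.w_pos hw1 hss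
  have a2 : w ^ s' < 1 := Real.rpow_lt_one h.w_pos.le hw1 hs'
  have e1 : (1 / 20 : ℝ) ^ s ≤ (1 / 20 : ℝ) ^ s' :=
    Real.rpow_le_rpow_of_exponent_ge (by norm_num) (by norm_num) hss.le
  have e0 : 0 < (1 / 20 : ℝ) ^ s := Real.rpow_pos_of_pos (by norm_num) _
  have e0' : 0 < (1 / 20 : ℝ) ^ s' := Real.rpow_pos_of_pos (by norm_num) _
  have n1 : η ^ s ≤ η ^ s' :=
    Real.rpow_le_rpow_of_exponent_ge h.η_pos (by linarith [h.η_le]) hss.le
  have n0 : 0 < η ^ s := Real.rpow_pos_of_pos h.η_pos _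
  have n0' : 0 < η ^ s' := Real.rpow_pos_of_pos h.η_pos _
  have y1 : y ^ s ≤ y ^ s' :=
    Real.rpow_le_rpow_of_exponent_ge h.y_pos (by linarith [h.y_le]) hss.le
  have y0 : 0 < y ^ s := Real.rpow_pos_of_pos h.y_pos _
  unfold gg GG at *
  generalize w ^ s = a at *
  generalize w ^ s' = a' at *
  generalize (1 / 20 : ℝ) ^ s = e at *
  generalize (1 / 20 : ℝ) ^ s' = e' at *
  generalize η ^ s = n at *
  generalize η ^ s' = n' at *
  generalize y ^ s = z at *
  generalize y ^ s' = z' at *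
  have hT : Q * e ≤ Q' * e' := mul_le_mul hQQ e1 e0.le (hQ.trans hQQ)
  have hX : Q * n ≤ Q' * n' := mul_le_mul hQQ n1 n0.le (hQ.trans hQQ)
  have hY : b * z ≤ b * z' := mul_le_mul_of_nonneg_left y1 hb
  have hbz : 0 ≤ b * z := mul_nonneg hb y0.le
  have hQ'0 : 0 ≤ Q' := hQ.trans hQQ
  have hg' : (1 - a) * (1 - Q * e) ≤ Q * n + b * z := by linarith
  suffices hsuff : (1 - a') * (1 - Q' * e') < Q' * n' + b * z' by linarith
  rcases le_or_gt 1 (Q' * e') with hT1 | hT1
  · have hQpos : 0 < Q' := by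
      rcases hQ'0.lt_or_eq with h0 | h0
      · exact h0
      · rw [← h0] at hT1; linarith
    have h1 : (1 - a') * (1 - Q' * e') ≤ 0 :=
      mul_nonpos_of_nonneg_of_nonpos (by linarith) (by linarith)
    have h2 : 0 < Q' * n' := mul_pos hQpos n0'
    linarith
  · have h1 : (1 - a') * (1 - Q' * e') < (1 - a) * (1 - Q' * e') :=
      mul_lt_mul_of_pos_right (by linarith) (by linarith)
    have h2 : (1 - a) * (1 - Q' * e') ≤ (1 - a) * (1 - Q * e) :=
      mul_le_mul_of_nonneg_left (by linarith) (by linarith)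
    linarith

theorem r_pos (s : ℝ) : 0 < (7 / 8 : ℝ) ^ s := Real.rpow_pos_of_pos (by norm_num) _

theorem r_lt {s : ℝ} (hs : 0 < s) : (7 / 8 : ℝ) ^ s < 1 :=
  Real.rpow_lt_one (by norm_num) (by norm_num) hs

theorem r_anti {s s' : ℝ} (h : s' ≤ s) : (7 / 8 : ℝ) ^ s ≤ (7 / 8 : ℝ) ^ s' :=
  Real.rpow_le_rpow_of_exponent_ge (by norm_num) (by norm_num) h

theorem summable_ind (S : Set ℕ) {s : ℝ} (hs : 0 < s) :
    Summable (S.indicator (fun n => ((7 / 8 : ℝ) ^ s) ^ n)) :=
  (summable_geometric_of_lt_one (r_pos s).le (r_lt hs)).indicator S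

/-- Lower bound for arbitrary sets containing the letter `0`. -/
theorem le_dimH_inf (h : Par w y η) (A : Set ℕ) (hA : 0 ∈ A) {s : ℝ} (hs : 0 < s) (Q : ℝ)
    (hQ : HasSum ((SS A).indicator (fun n => ((7 / 8 : ℝ) ^ s) ^ n)) Q)
    (hg : 1 ≤ gg w y η s (bb A) Q) : ENNReal.ofReal (s / 1000) ≤ dimH (lim w y η A) := by
  have hb : 0 ≤ bb A := indicator_nonneg (fun _ _ => zero_le_one) _
  have key : ∀ s' ∈ Ioo 0 s, ENNReal.ofReal (s' / 1000) ≤ dimH (lim w y η A) := by
    intro s' hs'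
    have hsum := (summable_ind (SS A) hs'.1).hasSum
    set Q' := ∑' n, (SS A).indicator (fun n => ((7 / 8 : ℝ) ^ s') ^ n) n with hQ'
    have hQ0 : 0 ≤ Q := hQ.nonneg (fun n => indicator_nonneg
      (fun n _ => (pow_pos (r_pos s) n).le) n)
    have hQQ : Q ≤ Q' := by
      refine hasSum_le (fun n => ?_) hQ hsum
      refine indicator_le_indicator ?_
      exact pow_le_pow_left₀ (r_pos s).le (r_anti hs'.2.le) n
    have hgg : 1 < gg w y η s' (bb A) Q' := gg_mono h hs'.1 hs'.2 hb hQ0 hQQ hg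
    have hlim : Tendsto (fun N => gg w y η s' (bb A)
        (∑ n ∈ Finset.range N, (SS A).indicator (fun n => ((7 / 8 : ℝ) ^ s') ^ n) n)) atTop
        (𝓝 (gg w y η s' (bb A) Q')) := by
      unfold gg
      exact (hsum.tendsto_sum_nat.mul_const _).const_add _
    obtain ⟨N, hN⟩ := (hlim.eventually_const_lt hgg).exists
    have hSS : HasSum ((SS (A ∩ Iio (N + 2))).indicator (fun n => ((7 / 8 : ℝ) ^ s') ^ n))
        (∑ n ∈ Finset.range N, (SS A).indicator (fun n => ((7 / 8 : ℝ) ^ s') ^ n) n) := by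
      have h1 : ∀ n ∉ Finset.range N,
          (SS (A ∩ Iio (N + 2))).indicator (fun n => ((7 / 8 : ℝ) ^ s') ^ n) n = 0 := by
        intro n hn
        apply indicator_of_notMem
        rintro ⟨-, h2⟩
        rw [mem_Iio] at h2
        exact hn (Finset.mem_range.2 (by omega))
      have h2 : HasSum ((SS (A ∩ Iio (N + 2))).indicator (fun n => ((7 / 8 : ℝ) ^ s') ^ n))
          (∑ n ∈ Finset.range N,
            (SS (A ∩ Iio (N + 2))).indicator (fun n => ((7 / 8 : ℝ) ^ s') ^ n) n) :=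
        hasSum_sum_of_ne_finset_zero h1
      have h3 : ∑ n ∈ Finset.range N,
          (SS (A ∩ Iio (N + 2))).indicator (fun n => ((7 / 8 : ℝ) ^ s') ^ n) n =
          ∑ n ∈ Finset.range N, (SS A).indicator (fun n => ((7 / 8 : ℝ) ^ s') ^ n) n := by
        refine Finset.sum_congr rfl (fun n hn => ?_)
        rw [Finset.mem_range] at hn
        by_cases hnA : n ∈ SS A
        · have : n ∈ SS (A ∩ Iio (N + 2)) := ⟨hnA, by rw [mem_Iio]; omega⟩
          rw [indicator_of_mem hnA, indicator_of_mem this]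
        · have : n ∉ SS (A ∩ Iio (N + 2)) := fun h' => hnA h'.1
          rw [indicator_of_notMem hnA, indicator_of_notMem this]
      rw [h3] at h2
      exact h2
    have hbb : bb (A ∩ Iio (N + 2)) = bb A := by
      unfold bb
      by_cases h1 : 1 ∈ A
      · have : 1 ∈ A ∩ Iio (N + 2) := ⟨h1, by rw [mem_Iio]; omega⟩
        rw [indicator_of_mem h1, indicator_of_mem this]
      · have : 1 ∉ A ∩ Iio (N + 2) := fun h' => h1 h'.1
        rw [indicator_of_notMem h1, indicator_of_notMem this]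
    refine (le_dimH_zero h (A ∩ Iio (N + 2)) ((finite_Iio _).subset inter_subset_right)
      ⟨hA, by rw [mem_Iio]; omega⟩ hs'.1 _ hSS ?_).trans (dimH_mono (lim_mono inter_subset_left))
    rw [hbb]
    exact hN.le
  have hcont : Tendsto (fun s' : ℝ => ENNReal.ofReal (s' / 1000)) (𝓝[<] s)
      (𝓝 (ENNReal.ofReal (s / 1000))) := by
    refine Tendsto.mono_left ?_ nhdsWithin_le_nhds
    exact (ENNReal.continuous_ofReal.comp (continuous_id.div_const 1000)).tendsto s
  refine le_of_tendsto hcont ?_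
  filter_upwards [Ioo_mem_nhdsLT hs] with s' hs'
  exact key s' hs'

/-- Full tail sums. -/
theorem hasSum_full {s : ℝ} (hs : 0 < s) :
    HasSum ((univ : Set ℕ).indicator (fun n => ((7 / 8 : ℝ) ^ s) ^ n)) (1 - (7 / 8 : ℝ) ^ s)⁻¹ := by
  rw [indicator_univ]
  exact hasSum_geometric_of_lt_one (r_pos s).le (r_lt hs)

theorem gg_two (h : Par w y η) : gg w y η 2 0 (1 - (7 / 8 : ℝ) ^ (2 : ℝ))⁻¹ = 1 := by
  unfold gg GG
  simp only [Real.rpow_two]
  have := h.eq2
  norm_num
  linarith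

theorem gg_five (h : Par w y η) : gg w y η 5 1 (1 - (7 / 8 : ℝ) ^ (5 : ℝ))⁻¹ = 1 := by
  unfold gg GG
  have e : ∀ x : ℝ, x ^ (5 : ℝ) = x ^ (5 : ℕ) := fun x => by
    rw [← Real.rpow_natCast]; norm_num
  simp only [e]
  have := h.eq5
  norm_num at this ⊢
  linarith

theorem gg_three (h : Par w y η) : gg w y η 3 1 0 = 1 := by
  unfold gg GG
  have e : ∀ x : ℝ, x ^ (3 : ℝ) = x ^ (3 : ℕ) := fun x => by
    rw [← Real.rpow_natCast]; norm_num
  simp only [e]
  have := h.eq3
  linarith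

/-- Realisation of a prescribed dimension. -/
theorem realise (h : Par w y η) (s₀ : ℝ) (hs₀ : s₀ ≤ 5) (B : Set ℕ) (hB : B ⊆ {1}) {s : ℝ}
    (hs : 0 < s) (hss : s ≤ s₀) (hg₀ : gg w y η s₀ (bb B) (1 - (7 / 8 : ℝ) ^ s₀)⁻¹ = 1)
    (hle : w ^ s + bb B * y ^ s ≤ 1) :
    ∃ A : Set ℕ, dimH (lim w y η A) = ENNReal.ofReal (s / 1000) := by
  have hb : 0 ≤ bb B := indicator_nonneg (fun _ _ => zero_le_one) _
  have hr : 1 / 2 ≤ (7 / 8 : ℝ) ^ s := by
    have h1 : (7 / 8 : ℝ) ^ (5 : ℝ) ≤ (7 / 8 : ℝ) ^ s := r_anti (hss.trans hs₀)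
    have h2 : (7 / 8 : ℝ) ^ (5 : ℝ) = (7 / 8 : ℝ) ^ (5 : ℕ) := by
      rw [← Real.rpow_natCast]; norm_num
    rw [h2] at h1
    norm_num at h1
    linarith
  have hr1 := r_lt hs
  have hgs : 1 ≤ gg w y η s (bb B) (1 - (7 / 8 : ℝ) ^ s)⁻¹ := by
    rcases hss.lt_or_eq with hlt | heq
    · refine (gg_mono h hs hlt hb ?_ ?_ hg₀.ge).le
      · exact inv_nonneg.2 (by linarith [r_lt (hs.trans hlt)])
      · exact inv_anti₀ (by linarith [r_lt hs]) (by linarith [r_anti hlt.le])
    · rw [heq]; exact hg₀.ge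
  have hG := GG_pos h hs
  set τ : ℝ := (1 - w ^ s - bb B * y ^ s) / GG w η s with hτ
  have hτ0 : 0 ≤ τ := div_nonneg (by linarith) hG.le
  have hτ1 : τ ≤ 1 / (1 - (7 / 8 : ℝ) ^ s) := by
    rw [hτ, div_le_iff₀ hG, one_div]
    unfold gg at hgs
    linarith
  obtain ⟨S, hS⟩ := exists_subsum _ hr hr1 τ hτ0 hτ1
  let A : Set ℕ := {0} ∪ B ∪ (fun n => n + 2) '' S
  have hSS : SS A = S := by
    ext n
    constructor
    · rintro ((h1 | h1) | ⟨m, hm, h1⟩)
      · exact absurd h1 (by simp)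
      · have := hB h1
        rw [mem_singleton_iff] at this
        omega
      · have : m = n := by simpa using h1
        exact this ▸ hm
    · intro hn
      exact Or.inr ⟨n, hn, rfl⟩
  have hbA : bb A = bb B := by
    unfold bb
    by_cases h1 : 1 ∈ B
    · have : 1 ∈ A := Or.inl (Or.inr h1)
      rw [indicator_of_mem h1, indicator_of_mem this]
    · have : 1 ∉ A := by
        rintro ((h2 | h2) | ⟨m, hm, h2⟩)
        · exact absurd h2 (by simp)
        · exact h1 h2
        · simp at h2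
      rw [indicator_of_notMem h1, indicator_of_notMem this]
  have h0A : 0 ∈ A := Or.inl (Or.inl rfl)
  have hg1 : gg w y η s (bb A) τ = 1 := by
    unfold gg
    rw [hbA, hτ, div_mul_cancel₀ _ hG.ne']
    ring
  refine ⟨A, le_antisymm ?_ ?_⟩
  · exact dimH_le_zero h A h0A hs τ (by rw [hSS]; exact hS) hg1.le
  · exact le_dimH_inf h A h0A hs τ (by rw [hSS]; exact hS) hg1.ge

/-- The subsystems without the letter `1`. -/
theorem dimH_no_one (h : Par w y η) : dimH (lim w y η {1}ᶜ) ≤ ENNReal.ofReal (2 / 1000) := by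
  have hSS : SS {1}ᶜ = univ := by
    ext n; simp [SS]
  have hbb : bb ({1}ᶜ : Set ℕ) = 0 := by
    unfold bb; exact indicator_of_notMem (by simp) _
  refine dimH_le_zero h _ (by simp) two_pos _ (by rw [hSS]; exact hasSum_full two_pos) ?_
  rw [hbb]
  exact (gg_two h).le

/-- All subsystems. -/
theorem dimH_all (h : Par w y η) : dimH (lim w y η univ) ≤ ENNReal.ofReal (5 / 1000) := by
  have hSS : SS univ = univ := by
    ext n; simp [SS]
  have hbb : bb (univ : Set ℕ) = 1 := by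
    unfold bb; exact indicator_of_mem (by simp) _
  refine dimH_le_zero h _ (by simp) (by norm_num) _
    (by rw [hSS]; exact hasSum_full (by norm_num)) ?_
  rw [hbb]
  exact (gg_five h).le

/-- The subsystem with the two letters `0, 1`. -/
theorem dimH_two (h : Par w y η) : ENNReal.ofReal (3 / 1000) ≤ dimH (lim w y η {0, 1}) := by
  have hSS : SS {0, 1} = ∅ := by
    ext n; simp [SS]
  have hbb : bb ({0, 1} : Set ℕ) = 1 := by
    unfold bb; exact indicator_of_mem (by simp) _
  refine le_dimH_inf h _ (by simp) (by norm_num) 0 (by rw [hSS, indicator_empty]; exact hasSum_zero) ?_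
  rw [hbb]
  exact (gg_three h).ge

/-- The subsystems without the letter `0`. -/
theorem dimH_no_zero (h : Par w y η) : dimH (lim w y η {0}ᶜ) ≤ ENNReal.ofReal (2 / 1000) := by
  have hs : (0 : ℝ) < 2 := two_pos
  -- the weights are the right slopes
  have hpow : ∀ n : ℕ, ((7 / 8 : ℝ) ^ n) ^ (2 : ℝ) = ((7 / 8 : ℝ) ^ (2 : ℝ)) ^ n := by
    intro n
    rw [Real.rpow_two, Real.rpow_two, ← pow_mul, ← pow_mul, mul_comm]
  have hrb2 : ∀ n, rb w y (n + 2) ^ (2 : ℝ) = (1 / 20 : ℝ) ^ (2 : ℝ) * ((7 / 8 : ℝ) ^ (2 : ℝ)) ^ n := by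
    intro n
    show (1 / 20 * (7 / 8 : ℝ) ^ n) ^ (2 : ℝ) = _
    rw [Real.mul_rpow (by norm_num) (by positivity), hpow]
  have hV : HasSum (({0}ᶜ : Set ℕ).indicator (fun e => rb w y e ^ (2 : ℝ))) (y ^ 2 + 4 / 375) := by
    have h1 : HasSum (fun n => ({0}ᶜ : Set ℕ).indicator (fun e => rb w y e ^ (2 : ℝ)) (n + 2))
        (4 / 375 : ℝ) := by
      have h2 := (hasSum_geometric_of_lt_one (r_pos 2).le (r_lt hs)).mul_left
        ((1 / 20 : ℝ) ^ (2 : ℝ))
      have h3 : (1 / 20 : ℝ) ^ (2 : ℝ) * (1 - (7 / 8 : ℝ) ^ (2 : ℝ))⁻¹ = 4 / 375 := by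
        rw [Real.rpow_two, Real.rpow_two]; norm_num
      rw [h3] at h2
      refine hasSum_congr' (fun n => ?_) h2
      rw [indicator_of_mem (by simp), hrb2]
    have h2 := hasSum_two h1
    convert h2 using 1
    rw [indicator_of_notMem (by simp), indicator_of_mem (by simp)]
    show _ = 0 + y ^ (2 : ℝ) + 4 / 375
    rw [Real.rpow_two]; ring
  have hlb : ∀ a, lb w y η a ^ (2 : ℝ) ≤ 400 * rb w y a ^ (2 : ℝ) := by
    intro a
    rw [Real.rpow_two, Real.rpow_two]
    have := pow_le_pow_left₀ (lb_pos h a).le (lb_rb h a) 2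
    nlinarith
  refine dimH_lim_le h {0}ᶜ hs (fun e => rb w y e ^ (2 : ℝ))
    (fun a => Real.rpow_nonneg (rb_pos h a).le _) 400 (by norm_num) ?_ _ hV
    (fun a => rb w y a ^ (2 : ℝ) * (y ^ 2 + 4 / 375)) ?_ ?_
  · intro a _
    have hR : 0 ≤ rb w y a ^ (2 : ℝ) := Real.rpow_nonneg (rb_pos h a).le _
    rcases le_total (lb w y η a ^ 1000) (rb w y a ^ 1000) with h4 | h4
    · rw [max_eq_right h4, rpow_thousand (rb_pos h a).le]; linarith
    · rw [max_eq_left h4, rpow_thousand (lb_pos h a).le]; exact hlb a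
  · intro a _
    refine hasSum_congr' (fun n => ?_) (hV.mul_left (rb w y a ^ (2 : ℝ)))
    by_cases hn : n = 0
    · subst hn
      rw [indicator_of_notMem (by simp), indicator_of_notMem (by simp), mul_zero]
    · rw [indicator_of_mem (by simpa using hn), indicator_of_mem (by simpa using hn),
        sl_ne h a 2 hn]
  · intro a _
    have hR : 0 ≤ rb w y a ^ (2 : ℝ) := Real.rpow_nonneg (rb_pos h a).le _
    have := h.y_sq
    show rb w y a ^ (2 : ℝ) * (y ^ 2 + 4 / 375) ≤ rb w y a ^ (2 : ℝ)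
    exact mul_le_of_le_one_right hR this

/-- The dimension spectrum of the system. -/
theorem spectrum_eq (h : Par w y η) :
    (sys h).spectrum = Icc 0 (1 / 500) ∪ Icc (3 / 1000) (1 / 200) := by
  ext σ
  constructor
  · rintro ⟨hσ, A, hA⟩
    change dimH ((sys h).limitSet A) = _ at hA
    change Set ℕ at A
    rw [limitSet_eq h] at hA
    by_cases h0 : 0 ∈ A
    · by_cases h1 : 1 ∈ A
      · right
        have h2 : ENNReal.ofReal (3 / 1000) ≤ ENNReal.ofReal σ := by
          rw [← hA]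
          refine (dimH_two h).trans (dimH_mono (lim_mono ?_))
          rintro n (rfl | rfl)
          · exact h0
          · exact h1
        have h3 : ENNReal.ofReal σ ≤ ENNReal.ofReal (5 / 1000) := by
          rw [← hA]
          exact (dimH_mono (lim_mono (subset_univ A))).trans (dimH_all h)
        rw [ENNReal.ofReal_le_ofReal_iff hσ] at h2
        rw [ENNReal.ofReal_le_ofReal_iff (by norm_num)] at h3
        exact ⟨h2, by linarith⟩
      · left
        have h3 : ENNReal.ofReal σ ≤ ENNReal.ofReal (2 / 1000) := by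
          rw [← hA]
          refine (dimH_mono (lim_mono ?_)).trans (dimH_no_one h)
          intro n hn hn1
          exact h1 (hn1 ▸ hn)
        rw [ENNReal.ofReal_le_ofReal_iff (by norm_num)] at h3
        exact ⟨hσ, by linarith⟩
    · left
      have h3 : ENNReal.ofReal σ ≤ ENNReal.ofReal (2 / 1000) := by
        rw [← hA]
        refine (dimH_mono (lim_mono ?_)).trans (dimH_no_zero h)
        intro n hn hn1
        exact h0 (hn1 ▸ hn)
      rw [ENNReal.ofReal_le_ofReal_iff (by norm_num)] at h3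
      exact ⟨hσ, by linarith⟩
  · intro hσ
    have hσ0 : 0 ≤ σ := by
      rcases hσ with h1 | h1
      · exact h1.1
      · linarith [h1.1]
    suffices hex : ∃ A : Set ℕ, dimH (lim w y η A) = ENNReal.ofReal σ by
      obtain ⟨A, hA⟩ := hex
      refine ⟨hσ0, A, ?_⟩
      rw [limitSet_eq h]
      exact hA
    rcases hσ0.lt_or_eq with hpos | rfl
    · have hs : 0 < 1000 * σ := by positivity
      have hconv : 1000 * σ / 1000 = σ := by ring
      rcases hσ with h1 | h1
      · have hb : bb (∅ : Set ℕ) = 0 := by unfold bb; simp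
        obtain ⟨A, hA⟩ := realise h 2 (by norm_num) ∅ (empty_subset _) hs
          (by linarith [h1.2]) (by rw [hb]; exact gg_two h) (by
            rw [hb, zero_mul, add_zero]
            exact Real.rpow_le_one h.w_pos.le (by linarith [h.w_lt]) hs.le)
        rw [hconv] at hA
        exact ⟨A, hA⟩
      · have hb : bb ({1} : Set ℕ) = 1 := by unfold bb; simp
        obtain ⟨A, hA⟩ := realise h 5 le_rfl {1} subset_rfl hs
          (by linarith [h1.2]) (by rw [hb]; exact gg_five h) (by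
            rw [hb, one_mul]
            have h3 : (3 : ℝ) ≤ 1000 * σ := by linarith [h1.1]
            have e : ∀ x : ℝ, x ^ (3 : ℝ) = x ^ (3 : ℕ) := fun x => by
              rw [← Real.rpow_natCast]; norm_num
            have h4 : w ^ (1000 * σ) ≤ w ^ (3 : ℝ) :=
              Real.rpow_le_rpow_of_exponent_ge h.w_pos (by linarith [h.w_lt]) h3
            have h5 : y ^ (1000 * σ) ≤ y ^ (3 : ℝ) :=
              Real.rpow_le_rpow_of_exponent_ge h.y_pos (by linarith [h.y_le]) h3
            rw [e] at h4 h5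
            have := h.eq3
            linarith)
        rw [hconv] at hA
        exact ⟨A, hA⟩
    · refine ⟨∅, ?_⟩
      have : lim w y η ∅ = ∅ := by
        ext x
        constructor
        · rintro ⟨ω, hω, -⟩
          exact (hω 0).elim
        · exact fun h => h.elim
      rw [this, dimH_empty, ENNReal.ofReal_zero]

end Pool.Agent.MP_5d65a3_an
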