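import Pool.Agent.Lib.MP_5d65a3_an.Maps
import Pool.Agent.Lib.MP_5d65a3_an.Params
import Pool.Agent.Lib.MP_5d65a3_an.Coding

set_option autoImplicit false

open Set Filter Topology MeasureTheory

namespace Pool.Agent.MP_5d65a3_an

/-- bases of the left slopes -/
noncomputable def lb (w y η : ℝ) : ℕ → ℝ
  | 0 => w
  | 1 => y / 2
  | n + 2 => η / (2 * w) * (7 / 8) ^ n

/-- bases of the right slopes -/
noncomputable def rb (w y : ℝ) : ℕ → ℝ
  | 0 => 2 * w
  | 1 => y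
  | n + 2 => 1 / 20 * (7 / 8) ^ n

/-- translation parts -/
noncomputable def cc : ℕ → ℝ
  | 0 => 1 / 6
  | 1 => 3 / 4
  | n + 2 => 9 / 10 + 1 / 20 * (1 / 2) ^ n

/-- bounds of the slopes -/
noncomputable def MM : ℕ → ℝ
  | 0 => 1 / 100
  | 1 => 1 / 100
  | n + 2 => 1 / 1000 * (1 / 2) ^ n

/-- the maps -/
noncomputable def fm (w y η : ℝ) (e : ℕ) : ℝ → ℝ :=
  mp (cc e) (lb w y η e ^ 1000) (rb w y e ^ 1000)

/-- the slope of `f_a` on the image of `f_b` -/
noncomputable def sl (w y η : ℝ) (a b : ℕ) : ℝ :=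
  if b = 0 then lb w y η a ^ 1000 else rb w y a ^ 1000

theorem pow_bound1 {x : ℝ} (h0 : 0 ≤ x) (h : x ≤ 9935 / 10000) : x ^ 1000 ≤ 1 / 100 := by
  have h1 : x ^ 100 ≤ 53 / 100 :=
    (pow_le_pow_left₀ h0 h 100).trans (by norm_num)
  calc x ^ 1000 = (x ^ 100) ^ 10 := by rw [← pow_mul]
    _ ≤ (53 / 100) ^ 10 := pow_le_pow_left₀ (by positivity) h1 10
    _ ≤ 1 / 100 := by norm_num

theorem pow_bound2 {x : ℝ} (h0 : 0 ≤ x) (h : x ≤ 86 / 100) : x ^ 1000 ≤ 1 / 1000 :=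
  calc x ^ 1000 ≤ x ^ 50 := pow_le_pow_of_le_one h0 (by linarith) (by norm_num)
    _ ≤ (86 / 100) ^ 50 := pow_le_pow_left₀ h0 h 50
    _ ≤ 1 / 1000 := by norm_num

theorem pow_bound3 : (7 / 8 : ℝ) ^ 1000 ≤ 1 / 2 :=
  calc (7 / 8 : ℝ) ^ 1000 ≤ (7 / 8) ^ 6 :=
        pow_le_pow_of_le_one (by norm_num) (by norm_num) (by norm_num)
    _ ≤ 1 / 2 := by norm_num

theorem pow_bound4 {x : ℝ} (h0 : 0 ≤ x) (h : x ≤ 86 / 100) (n : ℕ) :
    (x * (7 / 8) ^ n) ^ 1000 ≤ 1 / 1000 * (1 / 2) ^ n := by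
  rw [mul_pow]
  refine mul_le_mul (pow_bound2 h0 h) ?_ (by positivity) (by norm_num)
  rw [← pow_mul, mul_comm n, pow_mul]
  exact pow_le_pow_left₀ (by positivity) pow_bound3 n

section

variable {w y η : ℝ} (h : Par w y η)
include h

theorem ratio_pos : 0 < η / (2 * w) := div_pos h.η_pos (by linarith [h.w_pos])

theorem ratio_le : η / (2 * w) ≤ 86 / 100 := by
  rw [div_le_iff₀ (by linarith [h.w_pos])]
  linarith [h.η_le, h.w_ge]

theorem ratio_ge : 45 / 100 ≤ η / (2 * w) := by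
  rw [le_div_iff₀ (by linarith [h.w_pos])]
  linarith [h.η_ge, h.w_le]

theorem lb_pos (e : ℕ) : 0 < lb w y η e := by
  match e with
  | 0 => exact h.w_pos
  | 1 => exact half_pos h.y_pos
  | n + 2 => exact mul_pos (ratio_pos h) (by positivity)

theorem rb_pos (e : ℕ) : 0 < rb w y e := by
  match e with
  | 0 => show 0 < 2 * w; linarith [h.w_pos]
  | 1 => exact h.y_pos
  | n + 2 => show 0 < 1 / 20 * (7 / 8 : ℝ) ^ n; positivity

theorem L_pos (e : ℕ) : 0 < lb w y η e ^ 1000 := pow_pos (lb_pos h e) _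

theorem R_pos (e : ℕ) : 0 < rb w y e ^ 1000 := pow_pos (rb_pos h e) _

theorem L_le (e : ℕ) : lb w y η e ^ 1000 ≤ MM e := by
  match e with
  | 0 => exact pow_bound1 h.w_pos.le (by show w ≤ _; linarith [h.w_le])
  | 1 => exact pow_bound1 (half_pos h.y_pos).le (by show y / 2 ≤ _; linarith [h.y_le, h.y_pos])
  | n + 2 => exact pow_bound4 (ratio_pos h).le (ratio_le h) n

theorem R_le (e : ℕ) : rb w y e ^ 1000 ≤ MM e := by
  match e with
  | 0 => exact pow_bound1 (rb_pos h 0).le (by show 2 * w ≤ _; linarith [h.w_le])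
  | 1 => exact pow_bound1 h.y_pos.le h.y_le
  | n + 2 => exact pow_bound4 (by norm_num) (by norm_num) n

omit h in
theorem MM_pos (e : ℕ) : 0 < MM e := by
  match e with
  | 0 => norm_num [MM]
  | 1 => norm_num [MM]
  | n + 2 => show 0 < 1 / 1000 * (1 / 2 : ℝ) ^ n; positivity

omit h in
theorem MM_le (e : ℕ) : MM e ≤ 1 / 100 := by
  match e with
  | 0 => norm_num [MM]
  | 1 => norm_num [MM]
  | n + 2 =>
    show 1 / 1000 * (1 / 2 : ℝ) ^ n ≤ _
    have : (1 / 2 : ℝ) ^ n ≤ 1 := pow_le_one₀ (by norm_num) (by norm_num)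
    linarith

theorem fm_bounds (e : ℕ) {x : ℝ} (hx : x ∈ Icc (-1 : ℝ) 2) :
    cc e - MM e ≤ fm w y η e x ∧ fm w y η e x ≤ cc e + 2 * MM e :=
  mp_bounds (L_pos h e).le (R_pos h e).le (L_le h e) (R_le h e) hx

theorem fm_zero_mem {x : ℝ} (hx : x ∈ Icc (-1 : ℝ) 2) :
    0 ≤ fm w y η 0 x ∧ fm w y η 0 x ≤ 1 / 3 := by
  obtain ⟨h1, h2⟩ := fm_bounds h 0 hx
  norm_num [cc, MM] at h1 h2
  constructor <;> linarith

theorem fm_succ_mem {e : ℕ} (he : e ≠ 0) {x : ℝ} (hx : x ∈ Icc (-1 : ℝ) 2) :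
    2 / 3 ≤ fm w y η e x ∧ fm w y η e x ≤ 1 := by
  obtain ⟨h1, h2⟩ := fm_bounds h e hx
  match e with
  | 0 => exact absurd rfl he
  | 1 =>
    norm_num [cc, MM] at h1 h2
    constructor <;> linarith
  | n + 2 =>
    simp only [cc, MM] at h1 h2
    have h3 : (1 / 2 : ℝ) ^ n ≤ 1 := pow_le_one₀ (by norm_num) (by norm_num)
    have h4 : 0 < (1 / 2 : ℝ) ^ n := by positivity
    constructor <;> linarith

theorem fm_mem {e : ℕ} {x : ℝ} (hx : x ∈ Icc (-1 : ℝ) 2) : fm w y η e x ∈ Icc (0 : ℝ) 1 := by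
  by_cases he : e = 0
  · subst he
    have := fm_zero_mem h hx
    exact ⟨this.1, by linarith⟩
  · have := fm_succ_mem h he hx
    exact ⟨by linarith, this.2⟩

omit h in
theorem sep_aux {a b : ℕ} (hab : a < b) :
    cc a + 2 * MM a < cc b - MM b ∨ cc b + 2 * MM b < cc a - MM a := by
  match a, b, hab with
  | 0, 1, _ => left; norm_num [cc, MM]
  | 0, n + 2, _ =>
    left
    simp only [cc, MM]
    have h4 : 0 < (1 / 2 : ℝ) ^ n := by positivity
    linarith
  | 1, n + 2, _ =>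
    left
    simp only [cc, MM]
    have h4 : 0 < (1 / 2 : ℝ) ^ n := by positivity
    linarith
  | n + 2, m + 2, hnm =>
    right
    simp only [cc, MM]
    have h1 : (1 / 2 : ℝ) ^ m ≤ (1 / 2) ^ (n + 1) :=
      pow_le_pow_of_le_one (by norm_num) (by norm_num) (by omega)
    rw [pow_succ] at h1
    have h4 : 0 < (1 / 2 : ℝ) ^ n := by positivity
    linarith

theorem fm_sep {a b : ℕ} (hab : a ≠ b) : ∃ δ > 0, ∀ x ∈ Icc (-1 : ℝ) 2, ∀ z ∈ Icc (-1 : ℝ) 2,
    δ ≤ |fm w y η a x - fm w y η b z| := by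
  wlog hlt : a < b generalizing a b
  · obtain ⟨δ, hδ, h'⟩ := this hab.symm (lt_of_le_of_ne (not_lt.1 hlt) hab.symm)
    exact ⟨δ, hδ, fun x hx z hz => by rw [abs_sub_comm]; exact h' z hz x hx⟩
  rcases sep_aux hlt with h1 | h1
  · refine ⟨cc b - MM b - (cc a + 2 * MM a), by linarith, fun x hx z hz => ?_⟩
    have h2 := fm_bounds h a hx
    have h3 := fm_bounds h b hz
    rw [abs_sub_comm]
    refine le_trans ?_ (le_abs_self _)
    linarith [h2.2, h3.1]
  · refine ⟨cc a - MM a - (cc b + 2 * MM b), by linarith, fun x hx z hz => ?_⟩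
    have h2 := fm_bounds h a hx
    have h3 := fm_bounds h b hz
    refine le_trans ?_ (le_abs_self _)
    linarith [h2.1, h3.2]

theorem fm_contr : Contr (fm w y η) where
  mapsTo e x hx := fm_mem h ⟨by linarith [hx.1], by linarith [hx.2]⟩
  lip e x _ z _ := mp_abs_le (L_pos h e).le (R_pos h e).le ((L_le h e).trans (MM_le e))
    ((R_le h e).trans (MM_le e)) x z

theorem fm_aff (a b : ℕ) {x z : ℝ} (hx : x ∈ Icc (-1 : ℝ) 2) (hz : z ∈ Icc (-1 : ℝ) 2) :
    |fm w y η a (fm w y η b x) - fm w y η a (fm w y η b z)| =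
      sl w y η a b * |fm w y η b x - fm w y η b z| := by
  unfold sl
  split_ifs with hb
  · subst hb
    exact mp_left (L_pos h a).le (fm_zero_mem h hx).2 (fm_zero_mem h hz).2
  · exact mp_right (R_pos h a).le (fm_succ_mem h hb hx).1 (fm_succ_mem h hb hz).1

theorem fm_deriv_comp (a b : ℕ) {x : ℝ} (hx : x ∈ Icc (-1 : ℝ) 2) :
    deriv (fm w y η a) (fm w y η b x) = sl w y η a b := by
  unfold sl
  split_ifs with hb
  · subst hb
    exact mp_deriv_left (fm_zero_mem h hx).2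
  · exact mp_deriv_right (fm_succ_mem h hb hx).1

theorem sl_pos (a b : ℕ) : 0 < sl w y η a b := by
  unfold sl; split_ifs
  · exact L_pos h a
  · exact R_pos h a

theorem sl_le (a b : ℕ) : sl w y η a b ≤ 1 / 100 := by
  unfold sl; split_ifs
  · exact (L_le h a).trans (MM_le a)
  · exact (R_le h a).trans (MM_le a)

theorem fm_deriv_pos (e : ℕ) (x : ℝ) : 0 < deriv (fm w y η e) x :=
  (lt_min (L_pos h e) (R_pos h e)).trans_le
    (le_mp_deriv (min_le_left _ _) (min_le_right _ _) x)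

theorem fm_deriv_le (e : ℕ) (x : ℝ) : deriv (fm w y η e) x ≤ MM e :=
  mp_deriv_le (L_le h e) (R_le h e) x

theorem lb_rb (e : ℕ) : lb w y η e ≤ 20 * rb w y e := by
  match e with
  | 0 => show w ≤ 20 * (2 * w); linarith [h.w_pos]
  | 1 => show y / 2 ≤ 20 * y; linarith [h.y_pos]
  | n + 2 =>
    show η / (2 * w) * (7 / 8) ^ n ≤ 20 * (1 / 20 * (7 / 8) ^ n)
    have h4 : 0 < (7 / 8 : ℝ) ^ n := by positivity
    have := ratio_le h
    nlinarith

theorem rb_lb (e : ℕ) : rb w y e ≤ 20 * lb w y η e := by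
  match e with
  | 0 => show 2 * w ≤ 20 * w; linarith [h.w_pos]
  | 1 => show y ≤ 20 * (y / 2); linarith [h.y_pos]
  | n + 2 =>
    show 1 / 20 * (7 / 8) ^ n ≤ 20 * (η / (2 * w) * (7 / 8) ^ n)
    have h4 : 0 < (7 / 8 : ℝ) ^ n := by positivity
    have := ratio_ge h
    nlinarith

theorem fm_dist (e : ℕ) (x z : ℝ) :
    deriv (fm w y η e) x ≤ 20 ^ 1000 * deriv (fm w y η e) z := by
  have h1 : lb w y η e ^ 1000 ≤ 20 ^ 1000 * rb w y e ^ 1000 := by
    rw [← mul_pow]; exact pow_le_pow_left₀ (lb_pos h e).le (lb_rb h e) _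
  have h2 : rb w y e ^ 1000 ≤ 20 ^ 1000 * lb w y η e ^ 1000 := by
    rw [← mul_pow]; exact pow_le_pow_left₀ (rb_pos h e).le (rb_lb h e) _
  have h3 : deriv (fm w y η e) x ≤ max (lb w y η e ^ 1000) (rb w y e ^ 1000) :=
    mp_deriv_le (le_max_left _ _) (le_max_right _ _) x
  have h4 : min (lb w y η e ^ 1000) (rb w y e ^ 1000) ≤ deriv (fm w y η e) z :=
    le_mp_deriv (min_le_left _ _) (min_le_right _ _) z
  have hK : (1 : ℝ) ≤ 20 ^ 1000 := one_le_pow₀ (by norm_num)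
  have hL := L_pos h e
  have hR := R_pos h e
  generalize lb w y η e ^ 1000 = L at *
  generalize rb w y e ^ 1000 = R at *
  generalize (20 : ℝ) ^ 1000 = K at *
  have h5 : max L R ≤ K * min L R := by
    rcases le_total L R with h6 | h6
    · rw [max_eq_right h6, min_eq_left h6]; exact h2
    · rw [max_eq_left h6, min_eq_right h6]; exact h1
  calc deriv (fm w y η e) x ≤ max L R := h3
    _ ≤ K * min L R := h5
    _ ≤ K * deriv (fm w y η e) z := by gcongr

theorem word_mapsTo (v : List ℕ) {x : ℝ} (hx : x ∈ Ioo (-1 : ℝ) 2) :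
    wordMap (fm w y η) v x ∈ Ioo (-1 : ℝ) 2 := by
  induction v with
  | nil => exact hx
  | cons a v ih =>
    have := fm_mem h (e := a) (Ioo_subset_Icc_self ih)
    exact ⟨by show -1 < fm w y η a _; linarith [this.1],
      by show fm w y η a _ < 2; linarith [this.2]⟩

theorem word_deriv (v : List ℕ) : ∀ a : ℕ, ∃ P > 0, ∃ e : ℕ, ∀ x ∈ Ioo (-1 : ℝ) 2,
    HasDerivAt (wordMap (fm w y η) (a :: v)) (P * deriv (fm w y η e) x) x := by
  induction v with
  | nil =>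
    intro a
    refine ⟨1, one_pos, a, fun x _ => ?_⟩
    rw [one_mul]
    exact ((mp_contDiff _ _ _).differentiable (by simp) x).hasDerivAt
  | cons b v ih =>
    intro a
    obtain ⟨P, hP, e, hd⟩ := ih b
    refine ⟨sl w y η a b * P, mul_pos (sl_pos h a b) hP, e, fun x hx => ?_⟩
    have h1 := hd x hx
    have h2 : HasDerivAt (fm w y η a) (sl w y η a b) (wordMap (fm w y η) (b :: v) x) := by
      have h3 : deriv (fm w y η a) (wordMap (fm w y η) (b :: v) x) = sl w y η a b :=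
        fm_deriv_comp h a b (Ioo_subset_Icc_self (word_mapsTo h v hx))
      rw [← h3]
      exact ((mp_contDiff _ _ _).differentiable (by simp) _).hasDerivAt
    have h4 := h2.comp x h1
    rw [mul_assoc]
    exact h4

end

end Pool.Agent.MP_5d65a3_an
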