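import Pool.Agent.Lib.MP_5d65a3_an.Sys

set_option autoImplicit false

open Set Filter Topology MeasureTheory

namespace Pool.Agent.MP_5d65a3_an

variable {w y η : ℝ}

theorem cone_Icc : ∃ c > 0, ∀ x ∈ Icc (0 : ℝ) 1, ∀ r ∈ Ioo (0 : ℝ) 1,
    ENNReal.ofReal (c * r) ≤ volume (Icc (0 : ℝ) 1 ∩ Metric.ball x r) := by
  refine ⟨1 / 4, by norm_num, fun x hx r hr => ?_⟩
  rcases le_total x (1 / 2) with h | h
  · calc ENNReal.ofReal (1 / 4 * r) = volume (Icc x (x + 1 / 4 * r)) := by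
          rw [Real.volume_Icc]; ring_nf
      _ ≤ _ := by
        apply measure_mono
        intro z hz
        refine ⟨⟨by linarith [hx.1, hz.1], by linarith [hz.2, hr.2]⟩, ?_⟩
        rw [Metric.mem_ball, Real.dist_eq, abs_lt]
        constructor <;> linarith [hz.1, hz.2, hr.1]
  · calc ENNReal.ofReal (1 / 4 * r) = volume (Icc (x - 1 / 4 * r) x) := by
          rw [Real.volume_Icc]; ring_nf
      _ ≤ _ := by
        apply measure_mono
        intro z hz
        refine ⟨⟨by linarith [hz.1, hr.2], by linarith [hz.2, hx.2]⟩, ?_⟩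
        rw [Metric.mem_ball, Real.dist_eq, abs_lt]
        constructor <;> linarith [hz.1, hz.2, hr.1]

theorem small_fin (h : Par w y η) (ε : ℝ) (hε : 0 < ε) :
    {a : ℕ | ∃ x ∈ Ioo (-1 : ℝ) 2, ε ≤ |deriv (fm w y η a) x|}.Finite := by
  have h1 : Tendsto (fun n : ℕ => (1 / 2 : ℝ) ^ n) atTop (𝓝 0) :=
    tendsto_pow_atTop_nhds_zero_of_lt_one (by norm_num) (by norm_num)
  obtain ⟨N, hN⟩ := eventually_atTop.1 (h1.eventually_lt_const hε)
  refine (finite_Iio (N + 2)).subset ?_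
  rintro a ⟨x, _, hx⟩
  rw [mem_Iio]
  by_contra hcon
  push Not at hcon
  obtain ⟨n, rfl⟩ : ∃ n, a = n + 2 := ⟨a - 2, by omega⟩
  have h2 := hN n (by omega)
  rw [abs_of_pos (fm_deriv_pos h _ _)] at hx
  have h3 := fm_deriv_le h (n + 2) x
  have h4 : MM (n + 2) = 1 / 1000 * (1 / 2) ^ n := rfl
  rw [h4] at h3
  have h5 : 0 < (1 / 2 : ℝ) ^ n := by positivity
  linarith

theorem disto (h : Par w y η) : ∃ C : ℝ, 1 ≤ C ∧ ∀ v : List ℕ, ∀ x ∈ Ioo (-1 : ℝ) 2,
    ∀ z ∈ Ioo (-1 : ℝ) 2,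
    |deriv (wordMap (fm w y η) v) x| ≤ C * |deriv (wordMap (fm w y η) v) z| := by
  refine ⟨20 ^ 1000, one_le_pow₀ (by norm_num), fun v x hx z hz => ?_⟩
  cases v with
  | nil =>
    have h1 : wordMap (fm w y η) [] = fun x => x := rfl
    rw [h1, deriv_id'', abs_one, mul_one]
    exact one_le_pow₀ (by norm_num)
  | cons a v =>
    obtain ⟨P, hP, e, hd⟩ := word_deriv h v a
    rw [(hd x hx).deriv, (hd z hz).deriv, abs_mul, abs_mul, abs_of_pos hP,
      abs_of_pos (fm_deriv_pos h _ _), abs_of_pos (fm_deriv_pos h _ _)]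
    have := fm_dist h e x z
    calc P * deriv (fm w y η e) x ≤ P * (20 ^ 1000 * deriv (fm w y η e) z) := by gcongr
      _ = _ := by ring

/-- The system. -/
noncomputable def sys (h : Par w y η) : CIFS where
  E := ℕ
  countable_E := inferInstance
  X := Icc 0 1
  V := Ioo (-1) 2
  u := fm w y η
  X_nonempty := ⟨0, by simp⟩
  X_compact := isCompact_Icc
  X_regular := by rw [interior_Icc, closure_Ioo (by norm_num)]
  u_mapsTo_X a x hx := (fm_contr h).mapsTo a x hx
  X_subset_V x hx := ⟨by linarith [hx.1], by linarith [hx.2]⟩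
  V_open := isOpen_Ioo
  V_connected := isConnected_Ioo (by norm_num)
  V_bounded := Metric.isBounded_Ioo _ _
  V_dist := by
    refine ⟨1, one_pos, fun x hx z hz => ?_⟩
    rw [Real.dist_eq]
    by_contra hcon
    push Not at hcon
    rw [abs_lt] at hcon
    exact hz ⟨by linarith [hx.1], by linarith [hx.2]⟩
  u_mapsTo_V a x hx := by
    have := fm_mem h (e := a) (Ioo_subset_Icc_self hx)
    exact ⟨by linarith [this.1], by linarith [this.2]⟩
  u_homeo a := mp_openEmbedding (L_pos h a) (R_pos h a) isOpen_Ioo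
  u_smooth a := (mp_contDiff _ _ _).contDiffOn
  u_conformal a x _ := (fm_deriv_pos h a x).ne'
  cone := cone_Icc
  osc a b hab := by
    obtain ⟨δ, hδ, hs⟩ := fm_sep h hab
    rw [interior_Icc, Set.disjoint_left]
    rintro _ ⟨x, hx, rfl⟩ ⟨z, hz, hzx⟩
    have := hs x ⟨by linarith [hx.1], by linarith [hx.2]⟩ z ⟨by linarith [hz.1], by linarith [hz.2]⟩
    rw [hzx, sub_self, abs_zero] at this
    linarith
  contraction := ⟨1 / 100, by norm_num, fun a x _ => by
    rw [abs_of_pos (fm_deriv_pos h _ _)]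
    exact (fm_deriv_le h a x).trans (MM_le a)⟩
  contraction_tendsto := fun ε hε => small_fin h ε hε
  distortion := disto h

/-- limit sets of the subsystems in terms of the coding map -/
def lim (w y η : ℝ) (A : Set ℕ) : Set ℝ :=
  {x | ∃ ω : ℕ → ℕ, (∀ n, ω n ∈ A) ∧ x = code (fm w y η) ω}

theorem limitSet_eq (h : Par w y η) (A : Set ℕ) : (sys h).limitSet A = lim w y η A := by
  ext x
  constructor
  · rintro ⟨ω, hω, hx⟩
    refine ⟨ω, hω, ?_⟩
    exact tendsto_nhds_unique (hx 0 (by show (0 : ℝ) ∈ Icc (0 : ℝ) 1; simp))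
      (tendsto_code (fm_contr h) ω 0 (by simp))
  · rintro ⟨ω, hω, rfl⟩
    exact ⟨ω, hω, fun x₀ hx₀ => tendsto_code (fm_contr h) ω x₀ hx₀⟩

theorem lim_mono {A B : Set ℕ} (hAB : A ⊆ B) : lim w y η A ⊆ lim w y η B := by
  rintro x ⟨ω, hω, rfl⟩
  exact ⟨ω, fun n => hAB (hω n), rfl⟩

theorem lim_subset_Icc (h : Par w y η) (A : Set ℕ) : lim w y η A ⊆ Icc 0 1 := by
  rintro x ⟨ω, hω, rfl⟩
  exact code_mem (fm_contr h) ω

theorem lim_subset_iUnion (h : Par w y η) (A : Set ℕ) :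
    lim w y η A ⊆ ⋃ a : A, fm w y η a '' lim w y η A := by
  rintro x ⟨ω, hω, rfl⟩
  refine mem_iUnion.2 ⟨⟨ω 0, hω 0⟩, code (fm w y η) (fun k => ω (k + 1)),
    ⟨fun k => ω (k + 1), fun k => hω _, rfl⟩, ?_⟩
  exact (code_eq (fm_contr h) ω).symm

theorem wordMap_sub (f : ℕ → ℝ → ℝ) (A : Set ℕ) (v : List A) (x : ℝ) :
    wordMap (fun a : A => f a) v x = wordMap f (v.map Subtype.val) x := by
  induction v with
  | nil => rfl
  | cons a v ih =>
    show f a (wordMap (fun a : A => f a) v x) = f a (wordMap f (v.map Subtype.val) x)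
    rw [ih]

theorem range_code_subset (h : Par w y η) (A : Set ℕ) :
    range (code (fun a : A => fm w y η a)) ⊆ lim w y η A := by
  rintro _ ⟨ω, rfl⟩
  refine ⟨fun n => ω n, fun n => (ω n).2, ?_⟩
  have h1 : appr (fun a : A => fm w y η a) ω 0 = appr (fm w y η) (fun n => (ω n : ℕ)) 0 := by
    funext n
    unfold appr
    rw [wordMap_sub, List.map_map]
    rfl
  unfold code
  rw [h1]

theorem contr_sub (h : Par w y η) (A : Set ℕ) : Contr (fun a : A => fm w y η a) where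
  mapsTo e x hx := (fm_contr h).mapsTo e x hx
  lip e x hx z hz := (fm_contr h).lip e x hx z hz

end Pool.Agent.MP_5d65a3_an
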