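import Pool.Agent.Lib.MP_5d65a3_an.Coding

set_option autoImplicit false

open Set Filter Topology MeasureTheory ENNReal

namespace Pool.Agent.MP_5d65a3_an

/-- words of length `n+1` -/
def Wd (E : Type) : ℕ → Type
  | 0 => E
  | n + 1 => E × Wd E n

theorem wd_countable (E : Type) [Countable E] : ∀ n, Countable (Wd E n)
  | 0 => by unfold Wd; infer_instance
  | n + 1 => by
    unfold Wd
    have := wd_countable E n
    infer_instance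

/-- first letter -/
def wfst {E : Type} : ∀ n, Wd E n → E
  | 0, e => e
  | _ + 1, w => w.1

/-- cylinder sets -/
def cyl {E : Type} (f : E → ℝ → ℝ) : ∀ n, Wd E n → Set ℝ
  | 0, e => f e '' Icc 0 1
  | n + 1, w => f w.1 '' cyl f n w.2

/-- length bound of a cylinder -/
noncomputable def wlen {E : Type} (s : E → E → ℝ≥0∞) (κ : E → ℝ≥0∞) : ∀ n, Wd E n → ℝ≥0∞
  | 0, e => κ e
  | n + 1, w => s w.1 (wfst n w.2) * wlen s κ n w.2

variable {E : Type} {f : E → ℝ → ℝ}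

theorem cyl_subset (hc : Contr f) : ∀ n (w : Wd E n), cyl f n w ⊆ f (wfst n w) '' Icc 0 1
  | 0, _ => subset_rfl
  | n + 1, w => by
    show f w.1 '' cyl f n w.2 ⊆ f w.1 '' Icc 0 1
    refine image_mono ((cyl_subset hc n w.2).trans ?_)
    rintro _ ⟨x, hx, rfl⟩
    exact hc.mapsTo _ _ hx

theorem cyl_subset_Icc (hc : Contr f) (n : ℕ) (w : Wd E n) : cyl f n w ⊆ Icc 0 1 := by
  refine (cyl_subset hc n w).trans ?_
  rintro _ ⟨x, hx, rfl⟩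
  exact hc.mapsTo _ _ hx

theorem cyl_edist (hc : Contr f) (s : E → E → ℝ≥0∞) (κ : E → ℝ≥0∞)
    (hs : ∀ a b, ∀ x ∈ Icc (0 : ℝ) 1, ∀ y ∈ Icc (0 : ℝ) 1,
      edist (f a (f b x)) (f a (f b y)) ≤ s a b * edist (f b x) (f b y))
    (hκ : ∀ a, ∀ x ∈ Icc (0 : ℝ) 1, ∀ y ∈ Icc (0 : ℝ) 1, edist (f a x) (f a y) ≤ κ a) :
    ∀ n (w : Wd E n), ∀ x ∈ cyl f n w, ∀ y ∈ cyl f n w, edist x y ≤ wlen s κ n w
  | 0, e => by
    rintro _ ⟨x, hx, rfl⟩ _ ⟨y, hy, rfl⟩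
    exact hκ e x hx y hy
  | n + 1, w => by
    rintro _ ⟨x, hx, rfl⟩ _ ⟨y, hy, rfl⟩
    have ih := cyl_edist hc s κ hs hκ n w.2 x hx y hy
    obtain ⟨x', hx', rfl⟩ := cyl_subset hc n w.2 hx
    obtain ⟨y', hy', rfl⟩ := cyl_subset hc n w.2 hy
    refine (hs _ _ _ hx' _ hy').trans ?_
    show _ ≤ s w.1 (wfst n w.2) * wlen s κ n w.2
    gcongr

theorem cyl_diam (hc : Contr f) (s : E → E → ℝ≥0∞) (κ : E → ℝ≥0∞)
    (hs : ∀ a b, ∀ x ∈ Icc (0 : ℝ) 1, ∀ y ∈ Icc (0 : ℝ) 1,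
      edist (f a (f b x)) (f a (f b y)) ≤ s a b * edist (f b x) (f b y))
    (hκ : ∀ a, ∀ x ∈ Icc (0 : ℝ) 1, ∀ y ∈ Icc (0 : ℝ) 1, edist (f a x) (f a y) ≤ κ a)
    (n : ℕ) (w : Wd E n) : Metric.ediam (cyl f n w) ≤ wlen s κ n w :=
  Metric.ediam_le (fun x hx y hy => cyl_edist hc s κ hs hκ n w x hx y hy)

theorem cover (Λ : Set ℝ) (hΛX : Λ ⊆ Icc 0 1) (hΛ : Λ ⊆ ⋃ a, f a '' Λ) :
    ∀ n, Λ ⊆ ⋃ w : Wd E n, cyl f n w
  | 0 => by
    intro x hx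
    obtain ⟨a, ha⟩ := mem_iUnion.1 (hΛ hx)
    exact mem_iUnion.2 ⟨a, image_mono hΛX ha⟩
  | n + 1 => by
    intro x hx
    obtain ⟨a, y, hy, rfl⟩ := mem_iUnion.1 (hΛ hx)
    obtain ⟨w, hw⟩ := mem_iUnion.1 (cover Λ hΛX hΛ n hy)
    exact mem_iUnion.2 ⟨(a, w), mem_image_of_mem _ hw⟩

theorem wlen_le (s : E → E → ℝ≥0∞) (κ : E → ℝ≥0∞) (hs : ∀ a b, s a b ≤ 1 / 100)
    (hκ : ∀ a, κ a ≤ 1) : ∀ n (w : Wd E n), wlen s κ n w ≤ (1 / 100) ^ n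
  | 0, e => by
    rw [pow_zero]
    exact hκ e
  | n + 1, w => by
    show s w.1 (wfst n w.2) * wlen s κ n w.2 ≤ _
    rw [pow_succ, mul_comm]
    exact mul_le_mul' (wlen_le s κ hs hκ n w.2) (hs _ _)

theorem tsum_wlen (s : E → E → ℝ≥0∞) (κ : E → ℝ≥0∞) (σ : ℝ) (hσ : 0 < σ) (Y : E → ℝ≥0∞)
    (C : ℝ≥0∞) (hκY : ∀ a, κ a ^ σ ≤ C * Y a) (hsub : ∀ a, ∑' b, s a b ^ σ * Y b ≤ Y a) :
    ∀ n (a : E), ∑' w : Wd E n, (s a (wfst n w) * wlen s κ n w) ^ σ ≤ C * Y a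
  | 0, a => by
    calc ∑' w : Wd E 0, (s a (wfst 0 w) * wlen s κ 0 w) ^ σ
        = ∑' b : E, (s a b * κ b) ^ σ := rfl
      _ ≤ ∑' b : E, C * (s a b ^ σ * Y b) := by
          refine ENNReal.tsum_le_tsum (fun b => ?_)
          rw [ENNReal.mul_rpow_of_nonneg _ _ hσ.le, mul_left_comm]
          exact mul_le_mul' le_rfl (hκY b)
      _ = C * ∑' b : E, (s a b ^ σ * Y b) := ENNReal.tsum_mul_left
      _ ≤ C * Y a := mul_le_mul' le_rfl (hsub a)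
  | n + 1, a => by
    calc ∑' w : Wd E (n + 1), (s a (wfst (n + 1) w) * wlen s κ (n + 1) w) ^ σ
        = ∑' w : E × Wd E n, (s a w.1 * (s w.1 (wfst n w.2) * wlen s κ n w.2)) ^ σ := rfl
      _ = ∑' (b : E) (w : Wd E n), (s a b * (s b (wfst n w) * wlen s κ n w)) ^ σ :=
          ENNReal.tsum_prod (f := fun b w => (s a b * (s b (wfst n w) * wlen s κ n w)) ^ σ)
      _ = ∑' (b : E), s a b ^ σ * ∑' (w : Wd E n), (s b (wfst n w) * wlen s κ n w) ^ σ := by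
          refine tsum_congr (fun b => ?_)
          rw [← ENNReal.tsum_mul_left]
          refine tsum_congr (fun w => ?_)
          rw [ENNReal.mul_rpow_of_nonneg _ _ hσ.le]
      _ ≤ ∑' (b : E), C * (s a b ^ σ * Y b) := by
          refine ENNReal.tsum_le_tsum (fun b => ?_)
          rw [mul_left_comm]
          exact mul_le_mul' le_rfl (tsum_wlen s κ σ hσ Y C hκY hsub n b)
      _ = C * ∑' b : E, (s a b ^ σ * Y b) := ENNReal.tsum_mul_left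
      _ ≤ C * Y a := mul_le_mul' le_rfl (hsub a)

/-- Upper bound of the dimension through a subinvariant weight. -/
theorem dimH_le_of_weight [Countable E] (hc : Contr f) (s : E → E → ℝ≥0∞) (κ : E → ℝ≥0∞)
    (hs : ∀ a b, ∀ x ∈ Icc (0 : ℝ) 1, ∀ y ∈ Icc (0 : ℝ) 1,
      edist (f a (f b x)) (f a (f b y)) ≤ s a b * edist (f b x) (f b y))
    (hκ : ∀ a, ∀ x ∈ Icc (0 : ℝ) 1, ∀ y ∈ Icc (0 : ℝ) 1, edist (f a x) (f a y) ≤ κ a)
    (hs1 : ∀ a b, s a b ≤ 1 / 100) (hκ1 : ∀ a, κ a ≤ 1)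
    (σ : ℝ) (hσ : 0 < σ) (Y : E → ℝ≥0∞)
    (C : ℝ≥0∞) (hC : C ≠ ⊤) (hκY : ∀ a, κ a ^ σ ≤ C * Y a)
    (hsub : ∀ a, ∑' b, s a b ^ σ * Y b ≤ Y a) (hfin : ∑' b, Y b ≠ ⊤)
    (Λ : Set ℝ) (hΛX : Λ ⊆ Icc 0 1) (hΛ : Λ ⊆ ⋃ a, f a '' Λ) :
    dimH Λ ≤ ENNReal.ofReal σ := by
  have hcount : ∀ n, Countable (Wd E n) := wd_countable E
  have hlim : Tendsto (fun n : ℕ => ((1 / 100 : ℝ≥0∞)) ^ n) atTop (𝓝 0) := by
    refine ENNReal.tendsto_pow_atTop_nhds_zero_of_lt_one ?_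
    rw [ENNReal.div_lt_iff (by simp) (by simp)]
    norm_num
  have key : μH[σ] Λ ≤ C * ∑' b, Y b := by
    refine (Measure.hausdorffMeasure_le_liminf_tsum (ι := fun n => Wd E n) σ Λ (l := atTop)
      (fun n : ℕ => ((1 / 100 : ℝ≥0∞)) ^ n) hlim (fun n w => cyl f n w)
      (Eventually.of_forall (fun n w =>
        (cyl_diam hc s κ hs hκ n w).trans (wlen_le s κ hs1 hκ1 n w)))
      (Eventually.of_forall (fun n => cover Λ hΛX hΛ n))).trans ?_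
    refine liminf_le_of_frequently_le' ?_
    refine Eventually.frequently ?_
    filter_upwards [eventually_ge_atTop 1] with n hn
    obtain ⟨m, rfl⟩ : ∃ m, n = m + 1 := ⟨n - 1, by omega⟩
    calc ∑' w : Wd E (m + 1), Metric.ediam (cyl f (m + 1) w) ^ σ
        ≤ ∑' w : Wd E (m + 1), (wlen s κ (m + 1) w) ^ σ := by
          refine ENNReal.tsum_le_tsum (fun w => ?_)
          exact ENNReal.rpow_le_rpow (cyl_diam hc s κ hs hκ (m + 1) w) hσ.le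
      _ = ∑' w : E × Wd E m, (s w.1 (wfst m w.2) * wlen s κ m w.2) ^ σ := rfl
      _ = ∑' (a : E) (w : Wd E m), (s a (wfst m w) * wlen s κ m w) ^ σ :=
          ENNReal.tsum_prod (f := fun a w => (s a (wfst m w) * wlen s κ m w) ^ σ)
      _ ≤ ∑' a : E, C * Y a :=
          ENNReal.tsum_le_tsum (fun a => tsum_wlen s κ σ hσ Y C hκY hsub m a)
      _ = C * ∑' b, Y b := ENNReal.tsum_mul_left
  have hne : μH[((⟨σ, hσ.le⟩ : NNReal) : ℝ)] Λ ≠ ⊤ :=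
    ne_top_of_le_ne_top (ENNReal.mul_ne_top hC hfin) key
  have := dimH_le_of_hausdorffMeasure_ne_top hne
  refine this.trans (le_of_eq ?_)
  rw [ENNReal.ofReal, ENNReal.coe_inj]
  ext
  rw [Real.coe_toNNReal _ hσ.le]
  rfl

end Pool.Agent.MP_5d65a3_an
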