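import Pool.Agent.Lib.MP_5d65a3_an.System
import Pool.Agent.Lib.MP_5d65a3_an.Upper
import Pool.Agent.Lib.MP_5d65a3_an.Lower

set_option autoImplicit false

open Set Filter Topology MeasureTheory

namespace Pool.Agent.MP_5d65a3_an

/-- the auxiliary function `η^s + (1/20)^s (1 - w^s)` -/
noncomputable def GG (w η s : ℝ) : ℝ := η ^ s + (1 / 20 : ℝ) ^ s * (1 - w ^ s)

/-- the weights -/
noncomputable def YY (w y η s : ℝ) : ℕ → ℝ
  | 0 => (2 * w) ^ s
  | 1 => y ^ s
  | n + 2 => ((7 / 8 : ℝ) ^ s) ^ n * GG w η s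

/-- indices of the tail letters of `A` -/
def SS (A : Set ℕ) : Set ℕ := {n | n + 2 ∈ A}

theorem rpow_thousand {x : ℝ} (hx : 0 ≤ x) (s : ℝ) : (x ^ 1000) ^ (s / 1000) = x ^ s := by
  rw [← Real.rpow_natCast, ← Real.rpow_mul hx]
  congr 1
  push_cast
  ring

variable {w y η : ℝ}

theorem GG_pos (h : Par w y η) {s : ℝ} (hs : 0 < s) : 0 < GG w η s := by
  have h1 : w ^ s < 1 := Real.rpow_lt_one h.w_pos.le (by linarith [h.w_lt]) hs
  have h2 : 0 < η ^ s := Real.rpow_pos_of_pos h.η_pos _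
  have h3 : 0 < (1 / 20 : ℝ) ^ s := Real.rpow_pos_of_pos (by norm_num) _
  unfold GG
  have : 0 < (1 / 20 : ℝ) ^ s * (1 - w ^ s) := mul_pos h3 (by linarith)
  linarith

theorem YY_pos (h : Par w y η) {s : ℝ} (hs : 0 < s) (e : ℕ) : 0 < YY w y η s e := by
  match e with
  | 0 => exact Real.rpow_pos_of_pos (by linarith [h.w_pos]) _
  | 1 => exact Real.rpow_pos_of_pos h.y_pos _
  | n + 2 => exact mul_pos (pow_pos (Real.rpow_pos_of_pos (by norm_num) _) _) (GG_pos h hs)

theorem hasSum_congr' {f g : ℕ → ℝ} {v : ℝ} (hfg : ∀ n, f n = g n) (hg : HasSum g v) :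
    HasSum f v := by
  rw [show f = g from funext hfg]; exact hg

theorem hasSum_two {f : ℕ → ℝ} {v : ℝ} (h : HasSum (fun n => f (n + 2)) v) :
    HasSum f (f 0 + f 1 + v) := by
  have := (hasSum_nat_add_iff 2).1 h
  rw [Finset.sum_range_succ, Finset.sum_range_one] at this
  rwa [add_comm] at this

/-- indicator of `1 ∈ A` -/
noncomputable def bb (A : Set ℕ) : ℝ := A.indicator (fun _ => 1) 1

/-- the characteristic function `g_A(s)` -/
noncomputable def gg (w y η s b Q : ℝ) : ℝ := w ^ s + b * y ^ s + Q * GG w η s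

theorem sl_zero (h : Par w y η) (a : ℕ) (s : ℝ) :
    sl w y η a 0 ^ (s / 1000) = lb w y η a ^ s := by
  unfold sl; rw [if_pos rfl]; exact rpow_thousand (lb_pos h a).le s

theorem sl_ne (h : Par w y η) (a : ℕ) (s : ℝ) {e : ℕ} (he : e ≠ 0) :
    sl w y η a e ^ (s / 1000) = rb w y a ^ s := by
  unfold sl; rw [if_neg he]; exact rpow_thousand (rb_pos h a).le s

theorem hasSum_weights (h : Par w y η) (A : Set ℕ) (hA : 0 ∈ A) {s : ℝ} (Q : ℝ)
    (hQ : HasSum ((SS A).indicator (fun n => ((7 / 8 : ℝ) ^ s) ^ n)) Q) (a : ℕ) :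
    HasSum (A.indicator (fun e => sl w y η a e ^ (s / 1000) * YY w y η s e))
      (lb w y η a ^ s * (2 * w) ^ s + rb w y a ^ s * (gg w y η s (bb A) Q - w ^ s)) := by
  have h1 : HasSum (fun n => A.indicator
      (fun e => sl w y η a e ^ (s / 1000) * YY w y η s e) (n + 2))
      (rb w y a ^ s * (Q * GG w η s)) := by
    have h2 := (hQ.mul_right (GG w η s)).mul_left (rb w y a ^ s)
    refine hasSum_congr' (fun n => ?_) h2
    by_cases hn : n + 2 ∈ A
    · have hn' : n ∈ SS A := hn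
      rw [indicator_of_mem hn, indicator_of_mem hn', sl_ne h a s (by omega)]
      rfl
    · have hn' : n ∉ SS A := hn
      rw [indicator_of_notMem hn, indicator_of_notMem hn']
      ring
  have h2 := hasSum_two h1
  convert h2 using 1
  rw [indicator_of_mem hA, sl_zero h]
  have h3 : A.indicator (fun e => sl w y η a e ^ (s / 1000) * YY w y η s e) 1 =
      bb A * (rb w y a ^ s * y ^ s) := by
    unfold bb
    by_cases h1A : 1 ∈ A
    · rw [indicator_of_mem h1A, indicator_of_mem h1A, sl_ne h a s one_ne_zero, one_mul]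
      rfl
    · rw [indicator_of_notMem h1A, indicator_of_notMem h1A, zero_mul]
  rw [h3]
  show _ = lb w y η a ^ s * (2 * w) ^ s + _ + _
  unfold gg
  ring

/-- the value of the weighted sum, compared with the weight -/
theorem weight_value (h : Par w y η) {s : ℝ} (g : ℝ) (a : ℕ) :
    lb w y η a ^ s * (2 * w) ^ s + rb w y a ^ s * (g - w ^ s) =
      YY w y η s a + (rb w y a ^ s) * (g - 1) := by
  have hw := h.w_pos
  match a with
  | 0 =>
    show w ^ s * (2 * w) ^ s + (2 * w) ^ s * (g - w ^ s) = (2 * w) ^ s + (2 * w) ^ s * (g - 1)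
    ring
  | 1 =>
    show (y / 2) ^ s * (2 * w) ^ s + y ^ s * (g - w ^ s) = y ^ s + y ^ s * (g - 1)
    have h1 : (y / 2) ^ s * (2 * w) ^ s = y ^ s * w ^ s := by
      rw [← Real.mul_rpow (by linarith [h.y_pos]) (by linarith),
        ← Real.mul_rpow h.y_pos.le (by linarith)]
      congr 1; ring
    rw [h1]; ring
  | n + 2 =>
    show (η / (2 * w) * (7 / 8) ^ n) ^ s * (2 * w) ^ s +
      (1 / 20 * (7 / 8) ^ n) ^ s * (g - w ^ s) =
      ((7 / 8 : ℝ) ^ s) ^ n * GG w η s + (1 / 20 * (7 / 8) ^ n) ^ s * (g - 1)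
    have e1 : ((7 / 8 : ℝ) ^ n) ^ s = ((7 / 8 : ℝ) ^ s) ^ n := by
      rw [← Real.rpow_natCast, ← Real.rpow_natCast, ← Real.rpow_mul (by norm_num),
        ← Real.rpow_mul (by norm_num), mul_comm]
    have h1 : (η / (2 * w) * (7 / 8) ^ n) ^ s * (2 * w) ^ s = η ^ s * ((7 / 8 : ℝ) ^ s) ^ n := by
      rw [← e1, ← Real.mul_rpow (mul_nonneg (ratio_pos h).le (by positivity)) (by linarith),
        ← Real.mul_rpow h.η_pos.le (by positivity)]
      congr 1
      field_simp
    have h2 : (1 / 20 * (7 / 8 : ℝ) ^ n) ^ s = (1 / 20) ^ s * ((7 / 8 : ℝ) ^ s) ^ n := by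
      rw [Real.mul_rpow (by norm_num) (by positivity), e1]
    rw [h1, h2]
    unfold GG
    ring

/-- the weights bound the size of a cylinder of length one -/
theorem MM_le_YY (h : Par w y η) {s : ℝ} (hs : 0 < s) :
    ∃ C : ℝ, 0 < C ∧ ∀ a, (max (lb w y η a ^ 1000) (rb w y a ^ 1000)) ^ (s / 1000) ≤
      C * YY w y η s a := by
  have hw := h.w_pos
  have h2w : 0 < (2 * w) ^ s := Real.rpow_pos_of_pos (by linarith) _
  have h2w1 : (2 * w) ^ s ≤ 1 := Real.rpow_le_one (by linarith) (by linarith [h.w_lt]) hs.le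
  refine ⟨((2 * w) ^ s)⁻¹, inv_pos.2 h2w, fun a => ?_⟩
  have key : lb w y η a ^ s * (2 * w) ^ s ≤ YY w y η s a ∧
      rb w y a ^ s * (2 * w) ^ s ≤ YY w y η s a := by
    have hR : 0 < rb w y a ^ s := Real.rpow_pos_of_pos (rb_pos h a) _
    match a, hR with
    | 0, hR =>
      constructor
      · show w ^ s * (2 * w) ^ s ≤ (2 * w) ^ s
        have : w ^ s ≤ 1 := Real.rpow_le_one hw.le (by linarith [h.w_lt]) hs.le
        nlinarith
      · show (2 * w) ^ s * (2 * w) ^ s ≤ (2 * w) ^ s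
        nlinarith
    | 1, hR =>
      have hR' : 0 < y ^ s := hR
      constructor
      · show (y / 2) ^ s * (2 * w) ^ s ≤ y ^ s
        have : (y / 2) ^ s ≤ y ^ s :=
          Real.rpow_le_rpow (half_pos h.y_pos).le (by linarith [h.y_pos]) hs.le
        have h0 : 0 ≤ (y / 2) ^ s := Real.rpow_nonneg (half_pos h.y_pos).le _
        nlinarith
      · show y ^ s * (2 * w) ^ s ≤ y ^ s
        nlinarith
    | n + 2, hR =>
      have h3 := weight_value h (s := s) 1 (n + 2)
      have hws : w ^ s ≤ 1 := Real.rpow_le_one hw.le (by linarith [h.w_lt]) hs.le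
      rw [sub_self, mul_zero, add_zero] at h3
      have hR0 : 0 ≤ rb w y (n + 2) ^ s * (1 - w ^ s) := mul_nonneg hR.le (by linarith)
      constructor
      · linarith
      · have h4 : rb w y (n + 2) ≤ lb w y η (n + 2) := by
          show 1 / 20 * (7 / 8) ^ n ≤ η / (2 * w) * (7 / 8) ^ n
          have := ratio_ge h
          have h5 : 0 < (7 / 8 : ℝ) ^ n := by positivity
          nlinarith
        have h5 : rb w y (n + 2) ^ s ≤ lb w y η (n + 2) ^ s :=
          Real.rpow_le_rpow (rb_pos h _).le h4 hs.le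
        nlinarith
  rw [inv_mul_eq_div, le_div_iff₀ h2w]
  rcases le_total (lb w y η a ^ 1000) (rb w y a ^ 1000) with h4 | h4
  · rw [max_eq_right h4, rpow_thousand (rb_pos h a).le]; exact key.2
  · rw [max_eq_left h4, rpow_thousand (lb_pos h a).le]; exact key.1

/-- transfer of a real weighted sum to `ℝ≥0∞` -/
theorem tsum_ofReal_sub (A : Set ℕ) (F : ℕ → ℝ) (hF : ∀ n, 0 ≤ F n) (v : ℝ)
    (hv : HasSum (A.indicator F) v) : ∑' e : A, ENNReal.ofReal (F e) = ENNReal.ofReal v := by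
  rw [tsum_subtype A (fun e => ENNReal.ofReal (F e))]
  rw [← hv.tsum_eq, ENNReal.ofReal_tsum_of_nonneg
    (fun n => indicator_nonneg (fun n _ => hF n) n) hv.summable]
  refine tsum_congr (fun n => ?_)
  by_cases hn : n ∈ A
  · rw [indicator_of_mem hn, indicator_of_mem hn]
  · rw [indicator_of_notMem hn, indicator_of_notMem hn, ENNReal.ofReal_zero]

/-- General upper bound in terms of real weights. -/
theorem dimH_lim_le (h : Par w y η) (A : Set ℕ) {s : ℝ} (hs : 0 < s) (Y : ℕ → ℝ)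
    (hY : ∀ a, 0 ≤ Y a) (C : ℝ) (hC : 0 ≤ C)
    (hCY : ∀ a ∈ A, (max (lb w y η a ^ 1000) (rb w y a ^ 1000)) ^ (s / 1000) ≤ C * Y a)
    (V : ℝ) (hV : HasSum (A.indicator Y) V)
    (v : ℕ → ℝ) (hv : ∀ a ∈ A, HasSum (A.indicator (fun e => sl w y η a e ^ (s / 1000) * Y e)) (v a))
    (hvY : ∀ a ∈ A, v a ≤ Y a) :
    dimH (lim w y η A) ≤ ENNReal.ofReal (s / 1000) := by
  have hs' : 0 < s / 1000 := by positivity
  have hedist : ∀ (a : ℕ) (x z : ℝ) (K : ℝ), 0 ≤ K →
      |fm w y η a x - fm w y η a z| ≤ K * |x - z| →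
      edist (fm w y η a x) (fm w y η a z) ≤ ENNReal.ofReal K * edist x z := by
    intro a x z K hK hle
    rw [edist_dist, edist_dist, ← ENNReal.ofReal_mul hK, Real.dist_eq, Real.dist_eq]
    exact ENNReal.ofReal_le_ofReal hle
  refine dimH_le_of_weight (E := A) (contr_sub h A)
    (fun a b => ENNReal.ofReal (sl w y η a b))
    (fun a => ENNReal.ofReal (max (lb w y η a ^ 1000) (rb w y a ^ 1000)))
    ?_ ?_ ?_ ?_ (s / 1000) hs' (fun a => ENNReal.ofReal (Y a)) (ENNReal.ofReal C)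
    ENNReal.ofReal_ne_top ?_ ?_ ?_ (lim w y η A) (lim_subset_Icc h A) (lim_subset_iUnion h A)
  · intro a b x hx z hz
    refine hedist _ _ _ _ (sl_pos h _ _).le ?_
    exact (fm_aff h a b ⟨by linarith [hx.1], by linarith [hx.2]⟩
      ⟨by linarith [hz.1], by linarith [hz.2]⟩).le
  · intro a x hx z hz
    have hmax : 0 ≤ max (lb w y η a ^ 1000) (rb w y a ^ 1000) :=
      (L_pos h a).le.trans (le_max_left _ _)
    refine (hedist a x z _ hmax
      (mp_abs_le (L_pos h a).le (R_pos h a).le (le_max_left _ _) (le_max_right _ _) x z)).trans ?_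
    have h1 : edist x z ≤ 1 := by
      rw [edist_dist, Real.dist_eq]
      refine ENNReal.ofReal_le_one.2 ?_
      rw [abs_le]; constructor <;> linarith [hx.1, hx.2, hz.1, hz.2]
    calc _ ≤ ENNReal.ofReal (max (lb w y η a ^ 1000) (rb w y a ^ 1000)) * 1 := by gcongr
      _ = _ := mul_one _
  · intro a b
    have := ENNReal.ofReal_le_ofReal (sl_le h a b)
    refine this.trans (le_of_eq ?_)
    rw [ENNReal.ofReal_div_of_pos (by norm_num)]
    norm_num
  · intro a
    refine ENNReal.ofReal_le_one.2 ?_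
    exact max_le ((L_le h a).trans ((MM_le a).trans (by norm_num)))
      ((R_le h a).trans ((MM_le a).trans (by norm_num)))
  · intro a
    rw [ENNReal.ofReal_rpow_of_nonneg ((L_pos h a).le.trans (le_max_left _ _)) hs'.le,
      ← ENNReal.ofReal_mul hC]
    exact ENNReal.ofReal_le_ofReal (hCY a a.2)
  · intro a
    have h1 : ∀ e : A, ENNReal.ofReal (sl w y η a e) ^ (s / 1000) * ENNReal.ofReal (Y e) =
        ENNReal.ofReal (sl w y η a e ^ (s / 1000) * Y e) := by
      intro e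
      rw [ENNReal.ofReal_rpow_of_nonneg (sl_pos h _ _).le hs'.le,
        ← ENNReal.ofReal_mul (Real.rpow_nonneg (sl_pos h _ _).le _)]
    simp_rw [h1]
    rw [tsum_ofReal_sub A (fun e => sl w y η a e ^ (s / 1000) * Y e)
      (fun e => mul_nonneg (Real.rpow_nonneg (sl_pos h _ _).le _) (hY e)) (v a) (hv a a.2)]
    exact ENNReal.ofReal_le_ofReal (hvY a a.2)
  · rw [tsum_ofReal_sub A Y hY V hV]
    exact ENNReal.ofReal_ne_top

/-- Upper bound for sets containing the letter `0`. -/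
theorem dimH_le_zero (h : Par w y η) (A : Set ℕ) (hA : 0 ∈ A) {s : ℝ} (hs : 0 < s) (Q : ℝ)
    (hQ : HasSum ((SS A).indicator (fun n => ((7 / 8 : ℝ) ^ s) ^ n)) Q)
    (hg : gg w y η s (bb A) Q ≤ 1) : dimH (lim w y η A) ≤ ENNReal.ofReal (s / 1000) := by
  obtain ⟨C, hC, hCY⟩ := MM_le_YY h hs
  have hV : HasSum (A.indicator (YY w y η s))
      ((2 * w) ^ s + bb A * y ^ s + Q * GG w η s) := by
    have h1 : HasSum (fun n => A.indicator (YY w y η s) (n + 2)) (Q * GG w η s) := by
      have h2 := hQ.mul_right (GG w η s)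
      refine hasSum_congr' (fun n => ?_) h2
      by_cases hn : n + 2 ∈ A
      · have hn' : n ∈ SS A := hn
        rw [indicator_of_mem hn, indicator_of_mem hn']
        rfl
      · have hn' : n ∉ SS A := hn
        rw [indicator_of_notMem hn, indicator_of_notMem hn']
        ring
    have h2 := hasSum_two h1
    convert h2 using 1
    rw [indicator_of_mem hA]
    have h3 : A.indicator (YY w y η s) 1 = bb A * y ^ s := by
      unfold bb
      by_cases h1A : 1 ∈ A
      · rw [indicator_of_mem h1A, indicator_of_mem h1A, one_mul]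
        rfl
      · rw [indicator_of_notMem h1A, indicator_of_notMem h1A, zero_mul]
    rw [h3]
    rfl
  refine dimH_lim_le h A hs (YY w y η s) (fun a => (YY_pos h hs a).le) C hC.le
    (fun a _ => hCY a) _ hV _ (fun a _ => hasSum_weights h A hA Q hQ a) (fun a _ => ?_)
  rw [weight_value h]
  have : 0 ≤ rb w y a ^ s := Real.rpow_nonneg (rb_pos h a).le _
  nlinarith

/-- Lower bound for finite sets containing the letter `0`. -/
theorem le_dimH_zero (h : Par w y η) (A : Set ℕ) (hfin : A.Finite) (hA : 0 ∈ A) {s : ℝ}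
    (hs : 0 < s) (Q : ℝ)
    (hQ : HasSum ((SS A).indicator (fun n => ((7 / 8 : ℝ) ^ s) ^ n)) Q)
    (hg : 1 ≤ gg w y η s (bb A) Q) : ENNReal.ofReal (s / 1000) ≤ dimH (lim w y η A) := by
  classical
  have hs' : 0 < s / 1000 := by positivity
  have : Fintype A := hfin.fintype
  have : Nonempty A := ⟨⟨0, hA⟩⟩
  -- uniform constants
  obtain ⟨m₀, hm₀, hm⟩ : ∃ m₀ > 0, ∀ a : A, m₀ ≤ min (lb w y η a ^ 1000) (rb w y a ^ 1000) := by
    obtain ⟨a, ha⟩ := Finite.exists_min
      (fun a : A => min (lb w y η a ^ 1000) (rb w y a ^ 1000))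
    exact ⟨_, lt_min (L_pos h a) (R_pos h a), ha⟩
  have hsep : ∀ p : A × A, ∃ δ > 0, (p.1 : ℕ) ≠ p.2 → ∀ x ∈ Icc (-1 : ℝ) 2, ∀ z ∈ Icc (-1 : ℝ) 2,
      δ ≤ |fm w y η p.1 x - fm w y η p.2 z| := by
    intro p
    by_cases hp : (p.1 : ℕ) = p.2
    · exact ⟨1, one_pos, fun hne => absurd hp hne⟩
    · obtain ⟨δ, hδ, h'⟩ := fm_sep h hp
      exact ⟨δ, hδ, fun _ => h'⟩
  choose δ hδ hδs using hsep
  obtain ⟨p₀, hp₀⟩ := Finite.exists_min δ
  refine le_trans (le_dimH_of_weight (E := A) (contr_sub h A) (fun a b => sl w y η a b)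
    (fun a b => sl_pos h a b) (fun a b => sl_le h a b) ?_ m₀ hm₀ ?_ (δ p₀) (hδ p₀) ?_
    (s / 1000) hs' (fun a => YY w y η s a) (fun a => YY_pos h hs a) ?_)
    (dimH_mono (range_code_subset h A))
  · intro a b x hx z hz
    exact fm_aff h a b ⟨by linarith [hx.1], by linarith [hx.2]⟩
      ⟨by linarith [hz.1], by linarith [hz.2]⟩
  · intro a x _ z _
    exact le_mp_abs ((hm a).trans (min_le_left _ _)) ((hm a).trans (min_le_right _ _)) x z
  · intro a b hab x hx z hz
    refine (hp₀ (a, b)).trans ?_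
    exact hδs (a, b) (fun h => hab (Subtype.ext h)) x ⟨by linarith [hx.1], by linarith [hx.2]⟩ z
      ⟨by linarith [hz.1], by linarith [hz.2]⟩
  · intro a
    have h1 := hasSum_weights h A hA Q hQ a
    rw [← hasSum_subtype_iff_indicator] at h1
    have h2 := h1.unique (hasSum_fintype _)
    rw [weight_value h] at h2
    have h3 : 0 ≤ rb w y a ^ s := Real.rpow_nonneg (rb_pos h a).le _
    calc YY w y η s a ≤ YY w y η s a + rb w y a ^ s * (gg w y η s (bb A) Q - 1) := by
          nlinarith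
      _ = _ := h2

end Pool.Agent.MP_5d65a3_an
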